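import Pool.Agent.helper82.CH.Cheb
import Pool.Agent.helper10.CH.AllZ
import Pool.Agent.helper18.CH.CID
import Pool.Agent.helper87.CH.CSM
import Pool.Agent.helper54.CH.EXL
import Pool.Agent.helper66.CH.EXT
import Pool.Agent.helper27.CH.FRB
import Pool.Agent.helper7.CH.GEX
import Pool.Agent.helper7.CH.MEX
import Pool.Agent.helper58.CH.HCD
import Pool.Agent.helper58.CH.SPL
import Pool.Agent.helper76.CH.KFV
import Pool.Agent.helper76.CH.LCH
import Pool.Agent.helper85.CH.LGB
import Pool.Agent.helper3.CH.MAX
import Pool.Agent.helper27.CH.MCH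
import Pool.Agent.helper90.CH.MFN
import Pool.Agent.helper17.CH.NCH
import Pool.Agent.helper59.CH.NTL
import Pool.Agent.helper13.CH.NVS
import Pool.Agent.helper53.CH.PAPr
import Pool.Agent.helper79.CH.TRV
import Pool.Agent.helper83.CH.TSL
import Pool.Agent.helper33.CH.UEX
import Pool.Agent.helper51.CH.XPE
import Pool.Agent.helper68.CH.ZBD

/-!
# Project CH, stage 1: Chebotarev's theorem (existence form), assembled. No hypotheses.
-/

set_option autoImplicit false

open NumberField Complex Pool.Agent.UN

namespace Pool.Agent.CH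

theorem CSM_all : CSM_stmt := CSM ZBD

theorem TSL_all : TSL_stmt := TSL CSM_all

theorem LGB_all : LGB_stmt := LGB ZBD

theorem EXT_all : EXT_stmt := EXT XPE UEX

theorem MAX_all : MAX_stmt := MAX EXT_all

theorem LCH_all : LCH_stmt := LCH NCH MAX_all NTL TSL_all Pool.Agent.UN.AllZ.hHLE

theorem TRV_all : TRV_stmt := TRV SPL KFV

theorem NVS_all : NVS_stmt := NVS CID CSM_all EXL LGB_all LCH_all KFV MFN TRV_all HCD

theorem PAP_all : PAP_stmt := PAPr CID CSM_all EXL LGB_all LCH_all KFV TRV_all NVS_all

/-- **Chebotarev's theorem** (existence form) for all Galois extensions of number fields, without hypotheses. -/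
theorem CHEB_all : CHEB_stmt := CHEB_of PAP_all MCH MEX GEX FRB

end Pool.Agent.CH
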