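import Mathlib

/-!
# Project CH (MP_2e0e07_nt): Chebotarev's theorem for all Galois extensions of number fields, and its effective form

The two targets `CHEB_stmt`, `CHEBE_stmt` and the analytic targets `PAP_stmt`, `EPAP_stmt`.
-/

set_option autoImplicit false

open NumberField

namespace Pool.Agent.CH

/-- **CHEB** (Chebotarev's theorem, existence form): for every `σ` in the Galois group of `L / K` there is a prime `P` of `L` of residue
degree one over `ℚ` on `K` (norm of `P ∩ 𝓞 K` = `p`), outside a given finite set, at which `σ` is a Frobenius element. -/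
def CHEB_stmt : Prop := ∀ (K L : Type) [Field K] [NumberField K] [Field L] [NumberField L] [Algebra K L]
  [IsGalois K L] (σ : L ≃ₐ[K] L) (T : Finset ℕ), ∃ (p : ℕ) (P : Ideal (𝓞 L)), p.Prime ∧ p ∉ T ∧ P.IsPrime ∧
    Ideal.absNorm (P.under (𝓞 K)) = p ∧ IsArithFrobAt (𝓞 K) σ P

/-- **CHEBE** (effective form): the same with `p ≤ C N ^ A`, `N ≥ |discr L|`, `A`, `C` depend only on the degree of `L`. -/
def CHEBE_stmt : Prop := ∀ B : ℕ, ∃ A C : ℕ, ∀ (K L : Type) [Field K] [NumberField K] [Field L] [NumberField L]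
  [Algebra K L] [IsGalois K L] (N : ℕ) (σ : L ≃ₐ[K] L) (T : Finset ℕ), Module.finrank ℚ L ≤ B →
    |discr L| ≤ (N : ℤ) → T.card ≤ N → ∃ (p : ℕ) (P : Ideal (𝓞 L)), p.Prime ∧ p ∉ T ∧ p ≤ C * N ^ A ∧
      P.IsPrime ∧ Ideal.absNorm (P.under (𝓞 K)) = p ∧ IsArithFrobAt (𝓞 K) σ P

/-- **PAP**: prime ideals of degree one of `F` in the progressions of `Gal(F(ζ_m)/F)`. -/
def PAP_stmt : Prop := ∀ (F M : Type) [Field F] [NumberField F] [Field M] [NumberField M] [Algebra F M]
  (m r : ℕ) (z : M) (g : M ≃ₐ[F] M) (T : Finset ℕ), 0 < m → IsPrimitiveRoot z m → Algebra.adjoin F {z} = ⊤ →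
    g z = z ^ r → ∃ (p : ℕ) (I : Ideal (𝓞 F)), p.Prime ∧ p ∉ T ∧ p ≡ r [MOD m] ∧ Ideal.absNorm I = p

/-- **EPAP**: the effective form of PAP. -/
def EPAP_stmt : Prop := ∀ n m : ℕ, 0 < m → ∃ A C : ℕ, ∀ (F M : Type) [Field F] [NumberField F] [Field M]
  [NumberField M] [Algebra F M] (N r : ℕ) (z : M) (g : M ≃ₐ[F] M) (T : Finset ℕ), Module.finrank ℚ F ≤ n →
    |discr F| ≤ (N : ℤ) → T.card ≤ N → IsPrimitiveRoot z m → Algebra.adjoin F {z} = ⊤ → g z = z ^ r →
    ∃ (p : ℕ) (I : Ideal (𝓞 F)), p.Prime ∧ p ∉ T ∧ p ≤ C * N ^ A ∧ p ≡ r [MOD m] ∧ Ideal.absNorm I = p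

/-- **DSB** (discriminant bound): the discriminant of a number field of degree at most `n` divides a bounded power of a product of
the ramified primes. -/
def DSB_stmt : Prop := ∀ n : ℕ, ∃ c : ℕ, ∀ (L : Type) [Field L] [NumberField L], Module.finrank ℚ L ≤ n →
  (discr L).natAbs ∣ (∏ p ∈ (discr L).natAbs.primeFactors, p) ^ c

end Pool.Agent.CH
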