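import Pool.Agent.helper82.CH.SpecE

/-!
# Project CH, part E: characters of a finite abelian group (orthogonality), for all rows
-/

set_option autoImplicit false

open Complex

namespace Pool.Agent.CHE

section

variable {Y : Type} [CommGroup Y] [Fintype Y]

/-- the characters form a finite type -/
noncomputable instance ORT_fintype : Fintype (Y →* ℂˣ) := Fintype.ofFinite _

/-- there are `card Y` characters -/
theorem ORT_card : Fintype.card (Y →* ℂˣ) = Fintype.card Y := by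
  have := CommGroup.card_monoidHom_of_hasEnoughRootsOfUnity Y ℂ
  rwa [Nat.card_eq_fintype_card, Nat.card_eq_fintype_card] at this

/-- the values of a character have absolute value one -/
theorem ORT_norm (χ : Y →* ℂˣ) (y : Y) : ‖((χ y : ℂˣ) : ℂ)‖ = 1 := by
  have h : ((χ y : ℂˣ) : ℂ) ^ (Fintype.card Y) = 1 := by
    rw [← Units.val_pow_eq_pow_val, ← map_pow, pow_card_eq_one, map_one, Units.val_one]
  exact Complex.norm_eq_one_of_pow_eq_one h Fintype.card_ne_zero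

/-- the complex conjugate of the value is the value of the inverse character -/
theorem ORT_conj (χ : Y →* ℂˣ) (y : Y) :
    (starRingEnd ℂ) ((χ y : ℂˣ) : ℂ) = (((χ⁻¹ : Y →* ℂˣ) y : ℂˣ) : ℂ) := by
  rw [MonoidHom.inv_apply, Units.val_inv_eq_inv_val, Complex.inv_def, ← Complex.sq_norm, ORT_norm]
  simp

open Classical in
/-- orthogonality: the sum over the characters -/
theorem ORT_sum (y : Y) : ∑ χ : Y →* ℂˣ, ((χ y : ℂˣ) : ℂ) = if y = 1 then (Fintype.card Y : ℂ) else 0 := by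
  split_ifs with hy
  · subst hy
    simp [ORT_card]
  · obtain ⟨φ, hφ⟩ := CommGroup.exists_apply_ne_one_of_hasEnoughRootsOfUnity Y ℂ hy
    have h1 : ∑ χ : Y →* ℂˣ, ((χ y : ℂˣ) : ℂ) = ((φ y : ℂˣ) : ℂ) * ∑ χ : Y →* ℂˣ, ((χ y : ℂˣ) : ℂ) := by
      rw [Finset.mul_sum]
      refine (Fintype.sum_equiv (Equiv.mulLeft φ) _ _ fun χ => ?_).symm
      simp
    have h2 : ((φ y : ℂˣ) : ℂ) ≠ 1 := fun h => hφ (Units.ext h)
    have h3 : (1 - ((φ y : ℂˣ) : ℂ)) * ∑ χ : Y →* ℂˣ, ((χ y : ℂˣ) : ℂ) = 0 := by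
      rw [sub_mul, one_mul, ← h1, sub_self]
    exact (mul_eq_zero.1 h3).resolve_left (sub_ne_zero.2 (Ne.symm h2))

open Classical in
/-- orthogonality with a conjugate: detects the class `y` -/
theorem ORT_two (y x : Y) : ∑ χ : Y →* ℂˣ, (starRingEnd ℂ) ((χ y : ℂˣ) : ℂ) * ((χ x : ℂˣ) : ℂ) =
    if x = y then (Fintype.card Y : ℂ) else 0 := by
  have h : ∀ χ : Y →* ℂˣ, (starRingEnd ℂ) ((χ y : ℂˣ) : ℂ) * ((χ x : ℂˣ) : ℂ) =
      ((χ (y⁻¹ * x) : ℂˣ) : ℂ) := fun χ => by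
    rw [ORT_conj, MonoidHom.inv_apply, map_mul, map_inv, Units.val_mul]
  rw [Finset.sum_congr rfl fun χ _ => h χ, ORT_sum]
  by_cases hx : x = y
  · rw [if_pos hx, if_pos (by rw [hx, inv_mul_cancel])]
  · rw [if_neg hx, if_neg (fun h' => hx (by rw [inv_mul_eq_one] at h'; exact h'.symm))]

/-- the sum over the characters of the coefficients is `|Y| b 1` -/
theorem ORT_ak (b : Y → ℕ → ℝ) (k : ℕ) : ∑ χ : Y →* ℂˣ, ak b χ k = (Fintype.card Y : ℂ) * (b 1 k : ℂ) := by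
  classical
  unfold ak
  rw [Finset.sum_comm]
  simp_rw [← Finset.sum_mul, ORT_sum]
  simp

/-- the sum over the characters with the conjugate of `χ y` is `|Y| b y` -/
theorem ORT_aky (b : Y → ℕ → ℝ) (y : Y) (k : ℕ) :
    ∑ χ : Y →* ℂˣ, (starRingEnd ℂ) ((χ y : ℂˣ) : ℂ) * ak b χ k = (Fintype.card Y : ℂ) * (b y k : ℂ) := by
  classical
  unfold ak
  simp_rw [Finset.mul_sum, ← mul_assoc]
  rw [Finset.sum_comm]
  simp_rw [← Finset.sum_mul, ORT_two]
  simp

/-- the coefficients are bounded by the sum of the `b y k` -/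
theorem ORT_aknorm (b : Y → ℕ → ℝ) (hb : ∀ y k, 0 ≤ b y k) (χ : Y →* ℂˣ) (k : ℕ) : ‖ak b χ k‖ ≤ ∑ y, b y k := by
  unfold ak
  refine (norm_sum_le _ _).trans (Finset.sum_le_sum fun y _ => ?_)
  rw [norm_mul, ORT_norm, one_mul, Complex.norm_real, Real.norm_of_nonneg (hb y k)]

end

end Pool.Agent.CHE
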