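import Pool.Agent.helper82.CH.SpecN

set_option autoImplicit false

open NumberField Complex Pool.Agent.UN

namespace Pool.Agent.CH

/-- The effective form of Chebotarev's theorem from the rows of stage 2. -/
theorem CHEBE_of (hEPAP : EPAP_stmt) (hDFL : DFL_stmt) (hMCH : MCH_stmt) (hMEX : MEX_stmt) (hGEX : GEX_stmt)
    (hFRB : FRB_stmt) : CHEBE_stmt := by
  classical
  intro B
  obtain ⟨m, hm⟩ := hMCH B
  obtain ⟨A, C, hAC⟩ := hEPAP (m * B) m hm.1
  refine ⟨m * A, C * (m ^ (m * B) + m) ^ A, ?_⟩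
  intro K L _ _ _ _ _ _ N σ T hB hN hT
  obtain ⟨M, _, _, _, _, _, z, hGal, hz, had⟩ := hMEX K L m hm.1
  obtain ⟨g, r, hg1, hg2, hg3⟩ := hGEX B m hm K L M z σ hB hz had
  obtain ⟨h1, ⟨g', hg'⟩, h3⟩ := hFRB K L M m r z σ g hm.1 hz hg1 hg2 hg3 had
  have hgz : g' z = z ^ r := by rw [hg' z, hg2]
  obtain ⟨hd1, hd2, hd3⟩ := hDFL (IntermediateField.fixedField (Subgroup.zpowers g)) L M m z hm.1 hz had
  have hm1 : 1 ≤ m := hm.1
  have hMr : Module.finrank ℚ M ≤ m * B := by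
    rw [← Module.finrank_mul_finrank ℚ L M, mul_comm]
    exact Nat.mul_le_mul hd2 hB
  have hdL : (discr L).natAbs ≤ N := by
    have : ((discr L).natAbs : ℤ) ≤ (N : ℤ) := by rw [Int.natCast_natAbs]; exact hN
    exact_mod_cast this
  have hN1 : 1 ≤ N := le_trans (Int.natAbs_pos.2 (discr_ne_zero L)) hdL
  have hpow : (discr (IntermediateField.fixedField (Subgroup.zpowers g))).natAbs ≤ m ^ (m * B) * N ^ m := by
    refine hd1.trans (Nat.mul_le_mul (Nat.pow_le_pow_right hm1 hMr) ?_)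
    exact (Nat.pow_le_pow_left hdL _).trans (Nat.pow_le_pow_right hN1 hd2)
  have hN' : |discr (IntermediateField.fixedField (Subgroup.zpowers g))| ≤ ((m ^ (m * B) * N ^ m + m : ℕ) : ℤ) := by
    rw [← Int.natCast_natAbs]
    exact_mod_cast hpow.trans (Nat.le_add_right _ _)
  have hcard : (T ∪ m.primeFactors).card ≤ m ^ (m * B) * N ^ m + m := by
    refine (Finset.card_union_le _ _).trans (add_le_add ?_ ?_)
    · refine hT.trans ?_
      calc N = 1 * N ^ 1 := by rw [one_mul, pow_one]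
        _ ≤ m ^ (m * B) * N ^ m := Nat.mul_le_mul (Nat.one_le_pow _ _ hm1) (Nat.pow_le_pow_right hN1 hm1)
    · refine (Finset.card_le_card (fun q hq => ?_) : m.primeFactors.card ≤ (Finset.Icc 1 m).card).trans ?_
      · have hq' := Nat.mem_primeFactors.1 hq
        exact Finset.mem_Icc.2 ⟨hq'.1.one_lt.le, Nat.le_of_dvd hm1 hq'.2.1⟩
      · simp
  obtain ⟨p, I, hp, hpT, hpN, hpr, hI⟩ := hAC (IntermediateField.fixedField (Subgroup.zpowers g)) M
    (m ^ (m * B) * N ^ m + m) r z g' (T ∪ m.primeFactors) (hd3.trans hMr) hN' hcard hz h1 hgz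
  have hpm : ¬ p ∣ m := fun h =>
    hpT (Finset.mem_union_right _ (Nat.mem_primeFactors.2 ⟨hp, h, hm.1.ne'⟩))
  obtain ⟨P, hP1, hP2, hP3⟩ := h3 p I hp hpm hpr hI
  refine ⟨p, P, hp, fun h => hpT (Finset.mem_union_left _ h), ?_, hP1, hP2, hP3⟩
  refine hpN.trans ?_
  have hle : m ^ (m * B) * N ^ m + m ≤ (m ^ (m * B) + m) * N ^ m := by
    rw [add_mul]
    exact Nat.add_le_add_left (Nat.le_mul_of_pos_right _ (pow_pos (lt_of_lt_of_le Nat.zero_lt_one hN1) _)) _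
  calc C * (m ^ (m * B) * N ^ m + m) ^ A ≤ C * ((m ^ (m * B) + m) * N ^ m) ^ A :=
        Nat.mul_le_mul_left _ (Nat.pow_le_pow_left hle _)
    _ = C * (m ^ (m * B) + m) ^ A * N ^ (m * A) := by rw [mul_pow, ← pow_mul, mul_assoc]

end Pool.Agent.CH
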