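import Pool.Agent.helper82.CH.AllA
import Pool.Agent.helper82.CH.Chebe
import Pool.Agent.helper63.CH.CNJ
import Pool.Agent.helper54.CH.DHR
import Pool.Agent.helper63.CH.EFX
import Pool.Agent.helper87.CH.LIN
import Pool.Agent.helper2.CH.LLM
import Pool.Agent.helper63.CH.MB1
import Pool.Agent.helper57.CH.NPR
import Pool.Agent.helper79.CH.ONE
import Pool.Agent.helper90.CH.RSA
import Pool.Agent.helper77.CH.RSB
import Pool.Agent.helper57.CH.SIE
import Pool.Agent.helper79.CH.SQ1
import Pool.Agent.helper78.CH.SQ2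
import Pool.Agent.helper20.CH.THB
import Pool.Agent.helper57.CH.TPS
import Pool.Agent.helper57.CH.VMS
import Pool.Agent.helper1.CH.ZFA
import Pool.Agent.helper20.CH.ZFB
import Pool.Agent.helper20.CH.ZFR
import Pool.Agent.helper26.CH.ABX
import Pool.Agent.helper94.CH.COP
import Pool.Agent.helper6.CH.DFL
import Pool.Agent.helper6.CH.ELW
import Pool.Agent.helper13.CH.EPR
import Pool.Agent.helper94.CH.EPS
import Pool.Agent.helper20.CH.EUL
import Pool.Agent.helper81.CH.NCM
import Pool.Agent.helper78.CH.NHH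
import Pool.Agent.helper2.CH.SYS
import Pool.Agent.helper85.CH.ZM2

/-!
# Project CH, stage 2: the effective form of Chebotarev's theorem, assembled. No hypotheses.
-/

set_option autoImplicit false

open NumberField Complex Pool.Agent.UN

namespace Pool.Agent.CHE

theorem EFXt : EFX_stmt := EFX LLM

theorem SQ1t : SQ1_stmt := SQ1 VMS

theorem SQ2t : SQ2_stmt := SQ2 EFXt

theorem ZFBt : ZFB_stmt := ZFB EFXt

theorem ZFRt : ZFR_stmt := ZFR ZFA ZFBt CNJ

theorem DHRt : DHR_stmt := DHR EFXt TPS SQ2t SIE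

theorem MB1t : MB1_stmt := MB1 SQ1t

theorem THBt : THB_stmt := THB VMS

theorem LINt : LIN_stmt := LIN EFXt ZFRt SIE DHRt MB1t THBt NPR

theorem ONEt : ONE_stmt := ONE RSA RSB

end Pool.Agent.CHE

namespace Pool.Agent.CH

theorem ZM2_all : ZM2_stmt := ZM2 Pool.Agent.UN.AllZ.hCZR

theorem EUL_all : EUL_stmt := EUL CSM_all TSL_all

theorem EPS_all : EPS_stmt := EPS NCH MAX_all NTL TSL_all Pool.Agent.UN.AllZ.hHLE NCM EUL_all ZM2_all
  Pool.Agent.UN.AllZ.hHLZ Pool.Agent.UN.AllZ.hUBL Pool.Agent.UN.AllZ.hUBZ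

theorem ELW_all : ELW_stmt := ELW CID CSM_all EXL ZBD

theorem ABX_all : ABX_stmt := ABX NCM COP NHH TRV_all

theorem SYS_all : SYS_stmt := SYS EPS_all NCM CID CSM_all EXL ZBD ELW_all ABX_all CHE.ONEt

theorem EPAP_all : EPAP_stmt := EPR SYS_all CHE.LINt

/-- **The effective form of Chebotarev's theorem** (least prime in a class `≤ C |d_L|^A`), without hypotheses. -/
theorem CHEBE_all : CHEBE_stmt := CHEBE_of EPAP_all DFL MCH MEX GEX FRB

end Pool.Agent.CH
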