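import Pool.Agent.helper82.CH.Defs
import Pool.Agent.helper13.UN.Defs4

/-!
# Project CH (MP_2e0e07_nt), stage 1: Chebotarev's theorem (existence form)

RULES. Row `XXX`: file `Pool/Agent/<seat>/CH/XXX.lean`, `import Pool.Agent.helper82.CH.SpecA`, `set_option autoImplicit false`,
`open NumberField Complex Pool.Agent.UN`, `namespace Pool.Agent.CH`, theorem line as in the lock note. Auxiliary lemmas are prefixed `XXX_`. No sorry,
no straight double quotes, no convert / congr!. Every row may use the other `_stmt`s only as the hypotheses named in its line.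

Plan. Part 1 (CID ZBD CSM EXL TSL LGB): L-functions of completely multiplicative functions on ideals. Part 2 (XPE UEX EXT MAX NCH NTL LCH): the
functions `ψ(N a)`, `ψ` a Dirichlet character mod `m`, come from primitive Hecke characters, so their L-functions are entire (`HLE_stmt` of project UN).
Part 3 (KFV MFN SPL TRV HCD NVS PAP): non-vanishing at `1`, degree one primes with `N = r mod m`. Part 4 (MCH MEX GEX FRB): crossing with `Q(ζ_m)`.
-/

set_option autoImplicit false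

open NumberField Complex Pool.Agent.UN

namespace Pool.Agent.CH

section defs

variable {F : Type} [Field F] [NumberField F]

variable (F) in
/-- the ideals of norm `n` -/
noncomputable def idl (n : ℕ) : Finset (Ideal (𝓞 F)) := (Ideal.finite_setOfPred_absNorm_eq (S := 𝓞 F) n).toFinset

variable (F) in
/-- the number of ideals of norm `n` -/
noncomputable def nd (n : ℕ) : ℕ := Nat.card {I : Ideal (𝓞 F) // Ideal.absNorm I = n}

/-- the coefficients of the L-function of `χ` -/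
noncomputable def cc (χ : Ideal (𝓞 F) → ℂ) (n : ℕ) : ℂ := ∑ a ∈ idl F n, χ a

open Classical in
/-- von Mangoldt's function on the ideals: `log N(P)` at `P ^ k`, `k ≥ 1` -/
noncomputable def Lam (a : Ideal (𝓞 F)) : ℝ := if IsPrimePow a then Real.log (Ideal.absNorm a.radical) else 0

/-- the coefficients of `-L'/L` -/
noncomputable def zz (χ : Ideal (𝓞 F) → ℂ) (n : ℕ) : ℂ := ∑ a ∈ idl F n, χ a * (Lam a : ℂ)

/-- the coefficients of `log L` -/
noncomputable def lg (χ : Ideal (𝓞 F) → ℂ) (n : ℕ) : ℂ := zz χ n / (Real.log n : ℂ)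

/-- completely multiplicative functions on the ideals, bounded by one -/
structure CM (χ : Ideal (𝓞 F) → ℂ) : Prop where
  bot : χ ⊥ = 0
  one : χ ⊤ = 1
  mul : ∀ a b : Ideal (𝓞 F), χ (a * b) = χ a * χ b
  bd : ∀ a : Ideal (𝓞 F), ‖χ a‖ ≤ 1

/-- a Hecke character of finite order modulo `q` (times all real places), not necessarily primitive -/
structure HMo (q : Ideal (𝓞 F)) (χ : Ideal (𝓞 F) → ℂ) : Prop where
  q0 : q ≠ ⊥
  bot : χ ⊥ = 0
  one : χ ⊤ = 1
  mul : ∀ a b : Ideal (𝓞 F), χ (a * b) = χ a * χ b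
  unit : ∀ a : Ideal (𝓞 F), a ≠ ⊥ → a ⊔ q = ⊤ → ‖χ a‖ = 1
  zero : ∀ a : Ideal (𝓞 F), a ⊔ q ≠ ⊤ → χ a = 0
  per : ∀ x y : 𝓞 F, x ≠ 0 → y ≠ 0 → x - y ∈ q → (∀ φ : F →+* ℝ, 0 < φ x * φ y) →
    χ (Ideal.span {x}) = χ (Ideal.span {y})

variable (F) in
open Classical in
/-- the function `ψ(N a)` -/
noncomputable def nch {m : ℕ} (ψ : DirichletCharacter ℂ m) (a : Ideal (𝓞 F)) : ℂ :=
  if a = ⊥ then 0 else ψ ((Ideal.absNorm a : ℕ) : ZMod m)

variable (F) in
/-- `ψ(N a) = 1` for all ideals prime to `m` -/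
def Triv {m : ℕ} (ψ : DirichletCharacter ℂ m) : Prop :=
  ∀ a : Ideal (𝓞 F), a ≠ ⊥ → a ⊔ Ideal.span {((m : ℕ) : 𝓞 F)} = ⊤ → nch F ψ a = 1

end defs

/-! ## Part 1 -/

/-- **CID** (medium). `log N(a) = ∑_{b ∣ a} Λ(b)` for `a ≠ ⊥` (unique factorisation: the prime power divisors of `a = ∏ P^(e_P)` are the `P^j`,
`1 ≤ j ≤ e_P`, and `Λ(P^j) = log N(P)` since the radical of `P^j` is `P`); multiply by `χ(a) = χ(b) χ(a / b)` and sum over the `a` of norm `n`: the pairs `(b, a / b)`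
are the pairs of ideals with `N(b) N(b') = n` (`b' ≠ ⊥`). Hint for the first identity: induction on `a` (`UniqueFactorizationMonoid.induction_on_prime`) or
`multiset` of `normalizedFactors`. -/
def CID_stmt : Prop := ∀ (F : Type) [Field F] [NumberField F] (χ : Ideal (𝓞 F) → ℂ), CM χ → ∀ n : ℕ, n ≠ 0 →
  (Real.log n : ℂ) * cc χ n = ∑ d ∈ n.divisorsAntidiagonal, zz χ d.1 * cc χ d.2

/-- **ZBD** (medium). `‖zz χ n‖ ≤ ∑_{N(a) = n} Λ(a)`. If `a = P^k`, `P` over the prime `p`, `N(P) = p^f`, then `n = p^(f k)`; for `n = p^j`, `j ≥ 1`, every prime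
`P` over `p` gives at most one `k`; so the sum is at most `∑_{P ∣ p} f_P log p ≤ [F : ℚ] log p = [F : ℚ] Λ(n)` (`Ideal.sum_ramification_inertia`, or: the product of the
distinct `P` over `p` divides `(p)`, whose norm is `p^[F:ℚ]`). For a prime `p` the ideals of norm `p` are prime, `Λ(a) = log p`. `Nat.card = (idl F n).card`. -/
def ZBD_stmt : Prop := ∀ (F : Type) [Field F] [NumberField F] (χ : Ideal (𝓞 F) → ℂ), CM χ →
  (∀ n : ℕ, ‖zz χ n‖ ≤ Module.finrank ℚ F * ArithmeticFunction.vonMangoldt n) ∧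
  (∀ n : ℕ, n ≠ 0 → ‖cc χ n‖ ≤ nd F n) ∧ (∀ p : ℕ, p.Prime → zz χ p = (Real.log p : ℂ) * cc χ p)

/-- **CSM** (short). Comparison with `∑ nd n n^(-σ)` (first part of `TK.KE3_stmt`, proved in `Pool/Agent/helper30/TK/KE3.lean`: `theorem Pool.Agent.TK.KE3`; `nd = TK.nid` by
definition; or as in the Mathlib file `NumberField/DedekindZeta.lean`) and with `ArithmeticFunction.LSeriesSummable_vonMangoldt`; ZBD. `cc χ 0 = χ ⊥ = 0`, the value at `0` is irrelevant anyway. -/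
def CSM_stmt : Prop := ∀ (F : Type) [Field F] [NumberField F] (χ : Ideal (𝓞 F) → ℂ), CM χ → ∀ s : ℂ, 1 < s.re →
  LSeriesSummable (cc χ) s ∧ LSeriesSummable (zz χ) s ∧ LSeriesSummable (lg χ) s

/-- **EXL** (medium, PURE). For `1 < Re s`: `(LSeries c)' = - LSeries (log * c)` (`LSeries_hasDerivAt`; the abscissas are at most `1`: `LSeries.abscissaOfAbsConv_le_of_forall_lt_LSeriesSummable'`),
`LSeries (log * c) = LSeries z * LSeries c` (`LSeries_convolution'`, `LSeries.convolution_def`), and `(LSeries l)' = - LSeries z` for `l n = z n / log n` (`z 1 = 0` from the identity at `n = 1`, so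
`log n * l n = z n` for all `n ≥ 1`). So `exp(-LSeries l) LSeries c` has derivative `0` on the convex open half plane `1 < Re s`; its limit for real `s → ∞` is `1`
(`LSeries.tendsto_atTop`, `l 1 = 0`, `c 1 = 1`). -/
def EXL_stmt : Prop := ∀ c z : ℕ → ℂ, c 1 = 1 → (∀ s : ℂ, 1 < s.re → LSeriesSummable c s ∧ LSeriesSummable z s) →
  (∀ n : ℕ, n ≠ 0 → (Real.log n : ℂ) * c n = ∑ d ∈ n.divisorsAntidiagonal, z d.1 * c d.2) →
  (∀ s : ℂ, 1 < s.re → LSeriesSummable (fun n => z n / (Real.log n : ℂ)) s) → ∀ s : ℂ, 1 < s.re →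
    Complex.exp (LSeries (fun n => z n / (Real.log n : ℂ)) s) = LSeries c s ∧
    LSeries z s * LSeries c s = - deriv (LSeries c) s

/-- **TSL** (short-medium). Group the ideals by their norm: `Equiv.sigmaFiberEquiv` (`Ideal.absNorm`), `Summable.tsum_sigma'` (summable norms: CSM for the function `1` on the nonzero ideals,
or CSM of `a ↦ ‖χ a‖`), the fibre over `n` is finite (`idl F n`); the term of `⊥` is `0`. -/
def TSL_stmt : Prop := ∀ (F : Type) [Field F] [NumberField F] (χ : Ideal (𝓞 F) → ℂ), CM χ → ∀ s : ℂ, 1 < s.re →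
  ∑' a : Ideal (𝓞 F), χ a * (Nm a : ℂ) ^ (-s) = LSeries (cc χ) s

/-- **LGB** (medium). By ZBD the terms of the two L-series at `n` which is not a prime are at most `[F : ℚ] Λ(n) n^(-s)` resp. `[F : ℚ] Λ(n) / log n * n^(-s)`, zero unless `n = p^j`, `j ≥ 2`, and
`∑_{p, j ≥ 2} log p * p^(-j) < ∞` (`≤ ∑_n 2 log n / (n(n-1))`..). At a prime `p` the term of `zz` is `log p * cc χ p * p^(-s)`, that of `lg` is `cc χ p * p^(-s)`. Constants depend on
`[F : ℚ]` only. Hint: `tsum` over `ℕ` minus `tsum` over the subtype `Nat.Primes` (`Summable.tsum_subtype`, indicator functions). -/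
def LGB_stmt : Prop := ∀ (F : Type) [Field F] [NumberField F], ∃ C : ℝ, ∀ χ : Ideal (𝓞 F) → ℂ, CM χ → ∀ s : ℝ, 1 < s →
  Summable (fun p : Nat.Primes => cc χ p * (((p : ℕ) : ℂ) ^ (-(s : ℂ)))) ∧
  Summable (fun p : Nat.Primes => (Real.log p : ℂ) * cc χ p * (((p : ℕ) : ℂ) ^ (-(s : ℂ)))) ∧
  ‖LSeries (lg χ) s - ∑' p : Nat.Primes, cc χ p * (((p : ℕ) : ℂ) ^ (-(s : ℂ)))‖ ≤ C ∧
  ‖LSeries (zz χ) s - ∑' p : Nat.Primes, (Real.log p : ℂ) * cc χ p * (((p : ℕ) : ℂ) ^ (-(s : ℂ)))‖ ≤ C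

/-! ## Part 2 -/

/-- **XPE** (short-medium). `q'` = the product of the primes dividing `q` other than `P`. Chinese remainder theorem: `x₀ ≡ π mod P^2` with `π ∈ P \ P^2`, `x₀ ≡ 1 mod f q'` (`P^2` and `f q'` are coprime:
`Ideal.exists_mem..`/`IsDedekindDomain`, or `1 = u + v` with `u ∈ P^2`, `v ∈ f q'`, `x₀ = u + π v`.. check: `x₀ = u + v π` is `≡ π mod P^2` as `v ≡ 1`; and `≡ u ≡ 1 mod f q'`). Take a positive integer `k` in `P^2 f q'` (`Ideal.absNorm_mem`) and `x = x₀ + t k`,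
`t` a large natural number: positive at all (finitely many) real embeddings, `≠ 0`. `P ∣ (x)`, `(x) = P b`; `b` is prime to `P` (`x ∉ P^2`) and to the other primes of `q` (`x ≡ 1`). -/
def XPE_stmt : Prop := ∀ (F : Type) [Field F] [NumberField F] (q f P : Ideal (𝓞 F)), q ≠ ⊥ → f ≠ ⊥ → P ≠ ⊥ → P.IsPrime →
  P ⊔ f = ⊤ → ∃ (x : 𝓞 F) (b : Ideal (𝓞 F)), x ≠ 0 ∧ Ideal.span {x} = P * b ∧ b ⊔ q = ⊤ ∧ x - 1 ∈ f ∧
    ∀ φ : F →+* ℝ, 0 < φ x

/-- **UEX** (short). `1 = a + b`, `a ∈ q`, `b ∈ d`; `u = b + t k` with a positive integer `k ∈ q d` and large `t`. -/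
def UEX_stmt : Prop := ∀ (F : Type) [Field F] [NumberField F] (q d : Ideal (𝓞 F)), q ≠ ⊥ → d ≠ ⊥ → q ⊔ d = ⊤ →
  ∃ u : 𝓞 F, u ≠ 0 ∧ u ∈ d ∧ u - 1 ∈ q ∧ ∀ φ : F →+* ℝ, 0 < φ u

/-- **EXT** (medium-long): a character mod `q` which on the elements prime to `q` depends only on `x mod f`, `q ≤ f`, extends to a character mod `f`.
Proof. For a prime `P ∣ q`, `P ∤ f` take `x_P, b_P` from XPE (so `x_P ≡ 1 mod f`, totally positive, `(x_P) = P b_P`, `b_P` prime to `q`) and put `χ'(P) = conj χ(b_P)`; `χ'(P) = χ(P)` for `P ∤ q`, `χ'(P) = 0` for `P ∣ f`;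
`χ'(a) = ∏_{P ∈ normalizedFactors a} χ'(P)`, `χ'(⊥) = 0`. It is multiplicative, of modulus one for `a` prime to `f`, `0` otherwise, and equal to `χ` on the ideals prime to `q` (both multiplicative).
Periodicity. Claim: for every `x ≠ 0` prime to `f` there is `z ≠ 0` in `𝓞 F` prime to `q` with `z ≡ x mod f`, the same signs as `x` (`0 < φ x * φ z`) and `χ((z)) = χ'((x))`. Proof: `(x) = c ∏_{P ∣ q, P ∤ f} P^(k_P)`, `c` prime to `q`
(`x` prime to `f`). Let `u` be as in UEX for `q` and `d = ∏ b_P^(k_P)`. `(x u) = c (u) ∏ P^(k_P)` is divisible by `∏ (x_P)^(k_P) = ∏ P^(k_P) d`, so `x u = z ∏ x_P^(k_P)`, `(z) d = c (u)`; `z` is prime to `q`; `z ≡ z ∏ x_P^(k_P) = x u ≡ x mod f` (`q ≤ f`); signs: `u`, `x_P` are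
totally positive; `χ((z)) χ(d) = χ(c) χ((u))`, `χ((u)) = χ((1)) = 1` (`per`, `u ≡ 1 mod q`), `χ'((x)) = χ(c) ∏ conj χ(b_P)^(k_P) = χ(c) / χ(d) = χ((z))`. (If `x` is not prime to `f` then neither is `y` and both values are `0`.)
Now if `x ≡ y mod f` with the same signs, `z_x ≡ z_y mod f` with the same signs, both prime to `q`: equal values by hypothesis. Uses XPE, UEX. -/
def EXT_stmt : Prop := ∀ (F : Type) [Field F] [NumberField F] (q f : Ideal (𝓞 F)) (χ : Ideal (𝓞 F) → ℂ), HMo q χ → q ≤ f →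
  (∀ x y : 𝓞 F, x ≠ 0 → y ≠ 0 → Ideal.span {x} ⊔ q = ⊤ → Ideal.span {y} ⊔ q = ⊤ → x - y ∈ f →
    (∀ φ : F →+* ℝ, 0 < φ x * φ y) → χ (Ideal.span {x}) = χ (Ideal.span {y})) →
  ∃ χ' : Ideal (𝓞 F) → ℂ, HMo f χ' ∧ ∀ a : Ideal (𝓞 F), a ≠ ⊥ → a ⊔ q = ⊤ → χ' a = χ a

/-- **MAX** (medium): the primitive character. The set of the ideals `f ≥ q` with the hypothesis of EXT contains `q` (`per`); take a maximal one (noetherian: `WellFoundedGT`), and `χ'` from EXT. `HCharG f χ' 0 0`: `Ar 0 0 x = 1`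
(`ph 0 _ = exp 0`, exponents `0`). Primitive: let `f < g`. By maximality there are `x, y ≠ 0` prime to `q` with `x - y ∈ g`, the same signs, `χ((x)) ≠ χ((y))`. Let `k ≥ 2` be even with `y^k - 1 ∈ q` (twice the number of units of the finite ring `𝓞 F ⧸ q`).
`X = x y^(k-1)`: prime to `q`, hence to `f`; `X ≡ y^k ≡ 1 mod g` (`q ≤ g`); positive at the real places (`X = (x y) (y^((k-2)/2))^2`); `χ'((X)) = χ((x)) χ((y))^(k-1) = χ((x)) / χ((y)) * χ((y^k)) ≠ 1`, since `χ((y^k)) = 1` by `per`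
(`y^k - 1 ∈ q`, `y^k` totally positive) and `‖χ((y))‖ = 1`. Uses EXT. -/
def MAX_stmt : Prop := ∀ (F : Type) [Field F] [NumberField F] (q : Ideal (𝓞 F)) (χ : Ideal (𝓞 F) → ℂ), HMo q χ →
  ∃ (f : Ideal (𝓞 F)) (χ' : Ideal (𝓞 F) → ℂ), q ≤ f ∧ HCharG f χ' 0 0 ∧
    ∀ a : Ideal (𝓞 F), a ≠ ⊥ → a ⊔ q = ⊤ → χ' a = χ a

/-- **NCH** (medium). `absNorm` is multiplicative. `a` is prime to `(m)` iff `N(a)` is prime to `m` (a prime `P ⊇ a + (m)` has residue characteristic `l ∣ m` and `N(P) ∣ N(a)`; conversely if a prime `l` divides `m` and `N(a)` then `a` is contained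
in a prime over `l`, e.g. since the norm of `a` is the product of the norms of its prime factors, powers of their residue characteristics). `‖ψ(u)‖ = 1` for units, `ψ = 0` for non-units. `per`: `x - y = m t` implies `N(x) ≡ N(y) mod m` in `ℤ` (`Algebra.norm ℤ` is the
determinant of the matrix of multiplication in a basis: `Algebra.norm_eq_matrix_det`, the two matrices are congruent mod `m`: `Int.ModEq` of determinants by mapping to `ZMod m`: `RingHom.map_det`), and `N(x)`, `N(y)` have the same sign (product over the embeddings: the real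
ones have the same signs, the complex ones come in conjugate pairs with positive product: `Algebra.norm_eq_prod_embeddings`; or: `N(x) N(y) = N(x y) > 0`: `N(w) > 0` if `w` is positive at all real embeddings, see `Pool/Agent` for such lemmas), so `|N(x)| ≡ |N(y)|`; `Ideal.absNorm_span_singleton`. -/
def NCH_stmt : Prop := ∀ (F : Type) [Field F] [NumberField F] (m : ℕ) (ψ : DirichletCharacter ℂ m), 0 < m →
  HMo (Ideal.span {((m : ℕ) : 𝓞 F)}) (nch F ψ)

/-- **NTL** (short-medium). Let `χ(a) = ph t₀ (log N(a))` for all `a ≠ ⊥`. If `t₀ = 0` then `χ = 1` on the nonzero ideals, against the last hypothesis. Let `t₀ ≠ 0`. For a prime `p ∤ m`: `χ((p)) = ψ(p^n)`, `n = [F : ℚ]`, is a root of unity with `χ((p))^(φ(m)) = 1`, so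
`t₀ n φ(m) log p = 2π A_p`, `A_p` a nonzero integer of the sign of `t₀`. For two primes `p ≠ p'` not dividing `m`: `A_p' log p = A_p log p'`, so `p^|A_p'| = p'^|A_p|`, impossible. -/
def NTL_stmt : Prop := ∀ (F : Type) [Field F] [NumberField F] (m : ℕ) (ψ : DirichletCharacter ℂ m) (χ : Ideal (𝓞 F) → ℂ), 0 < m →
  (∀ a : Ideal (𝓞 F), a ≠ ⊥ → a ⊔ Ideal.span {((m : ℕ) : 𝓞 F)} = ⊤ → χ a = nch F ψ a) → ¬ Triv F ψ → NT χ

/-- **LCH** (short-medium). `χ` = the primitive character of MAX for `nch F ψ` (NCH). CM: from `HCharG`. `cc χ p = ∑_{N(a) = p} ψ(p)` (an ideal of prime norm `p ∤ m` is prime to `(m)`: `p` lies in it). `L`: `HLE_stmt` (NTL), `HLG.series`, TSL. -/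
def LCH_stmt : Prop := ∀ (F : Type) [Field F] [NumberField F] (m : ℕ) (ψ : DirichletCharacter ℂ m), 0 < m →
  ∃ χ : Ideal (𝓞 F) → ℂ, CM χ ∧ (∀ p : ℕ, p.Prime → ¬ p ∣ m → cc χ p = ψ ((p : ℕ) : ZMod m) * (nd F p : ℂ)) ∧
    (¬ Triv F ψ → ∃ L : ℂ → ℂ, Differentiable ℂ L ∧ ∀ s : ℂ, 1 < s.re → LSeries (cc χ) s = L s)

/-! ## Part 3 -/

/-- **KFV** (short): this is `TK.KE5` (`Pool/Agent/helper25/TK/KE5.lean`) with `TK.KE1`, `TK.KE2`, `TK.KE3`, `TK.KE4`; `nd = TK.nid` by definition. -/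
def KFV_stmt : Prop := ∀ (L : Type) [Field L] [NumberField L], ∃ C δ : ℝ, 0 < δ ∧
  ∀ s : ℝ, 1 < s → s < 1 + δ →
    (Summable fun p : Nat.Primes => (nd L p : ℝ) * ((p : ℕ) : ℝ) ^ (-s)) ∧
    |∑' p : Nat.Primes, (nd L p : ℝ) * ((p : ℕ) : ℝ) ^ (-s) + Real.log (s - 1)| ≤ C

/-- **MFN** (short-medium). A prime `Q` of `M` of norm `p`: `𝓞 M ⧸ Q = 𝔽_p`; `P = Q ∩ 𝓞 F` has norm `p` (`𝓞 F ⧸ P` embeds in `𝔽_p`, `p ∈ P`); at most `[M : F]` primes of `M` lie over `P` (`Ideal.sum_ramification_inertia`, `Ideal.card_primesOver..`).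
The image of the primitive `m`-th root of unity `z` (an element of `𝓞 M`) in `𝔽_p` has order `m` as `p ∤ m` (`X^m - 1` is separable; `∏_{0<i<m} (1 - z^i) = m`), so `m ∣ p - 1`. -/
def MFN_stmt : Prop := ∀ (F M : Type) [Field F] [NumberField F] [Field M] [NumberField M] [Algebra F M] (m : ℕ) (z : M),
  0 < m → IsPrimitiveRoot z m → ∀ p : ℕ, p.Prime → ¬ p ∣ m →
    nd M p ≤ Module.finrank F M * nd F p ∧ (nd M p ≠ 0 → p ≡ 1 [MOD m])

/-- **SPL** (medium-long). Complete splitting. Let `P` be a prime of `F` of norm `p`, `p ∤ m`, and unramified in `F₁` (all but finitely many `p`: for instance `p ∤ discr F₁`, or use `differentIdeal`), `Q₁` a prime of `F₁` over `P`, `Q` a prime of `M` over `Q₁`. `M / F` is Galois (cyclotomic) and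
there is `τ ∈ Gal(M/F)` which is a Frobenius element at `Q` (`IsArithFrobAt.exists_of_isInvariant (𝓞 F) (M ≃ₐ[F] M) Q`), `τ x ≡ x^p mod Q`; `τ z = z^p` (`AlgHom.IsArithFrobAt.apply_of_pow_eq_one`), `ψ(p) = nch F ψ P = 1` (`Triv`), so `τ` is the identity on `F₁`; hence
`x^p ≡ x mod Q₁` for `x ∈ 𝓞 F₁`, so `𝓞 F₁ ⧸ Q₁` has at most `p` elements: residue degree one, norm `p`. Ramification index one. So exactly `[F₁ : F]` primes over `P` (`Ideal.sum_ramification_inertia`), all of norm `p`; sum over the `nd F p` primes `P`. -/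
def SPL_stmt : Prop := ∀ (F M : Type) [Field F] [NumberField F] [Field M] [NumberField M] [Algebra F M] (m : ℕ) (z : M)
  (ψ : DirichletCharacter ℂ m) (F₁ : IntermediateField F M), 0 < m → IsPrimitiveRoot z m → Algebra.adjoin F {z} = ⊤ →
  Triv F ψ → (∀ (g : M ≃ₐ[F] M) (r : ℕ), g z = z ^ r → ψ ((r : ℕ) : ZMod m) = 1 → ∀ x ∈ F₁, g x = x) →
  ∃ D : ℕ, 0 < D ∧ ∀ p : ℕ, p.Prime → ¬ p ∣ D → Module.finrank F F₁ * nd F p ≤ nd F₁ p

/-- **TRV** (medium). `κ : Gal(M/F) → (ZMod m)ˣ`, `g z = z^(κ g)` (`IsPrimitiveRoot.autToPow`), is an injective homomorphism (`M = F(z)`). `U = {g : ψ(κ g) = 1}` is a subgroup, `F₁` its fixed field, `d = [F₁ : F] =` index of `U` (`M / F` is Galois). By SPL and KFV for `F` and `F₁` (finitely many `p` give `O(1)`):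
`d (-log(s-1)) - C ≤ ∑ d nd F p p^(-s) ≤ ∑ nd F₁ p p^(-s) + C ≤ -log(s-1) + C` for `s → 1+`, so `d = 1`, `U` is everything. Uses SPL, KFV. -/
def TRV_stmt : Prop := ∀ (F M : Type) [Field F] [NumberField F] [Field M] [NumberField M] [Algebra F M] (m : ℕ) (z : M)
  (ψ : DirichletCharacter ℂ m), 0 < m → IsPrimitiveRoot z m → Algebra.adjoin F {z} = ⊤ →
  Triv F ψ → ∀ (g : M ≃ₐ[F] M) (r : ℕ), g z = z ^ r → ψ ((r : ℕ) : ZMod m) = 1

/-- **HCD** (medium). `M / F` is Galois, `κ : Gal(M/F) → (ZMod m)ˣ` is injective, its image `H` has `[M : F]` elements; the characters of `(ZMod m)ˣ` trivial on `H` are the characters of the quotient, `φ(m) / [M : F]` many (Dirichlet characters mod `m` with values in `ℂ` are the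
homomorphisms `(ZMod m)ˣ → ℂˣ`: `MulChar.equivToUnitHom`; number of characters of a finite abelian group: `CommGroup.monoidHom_mulEquiv_of_hasEnoughRootsOfUnity`, `Nat.card`). Only `≤` is needed. -/
def HCD_stmt : Prop := ∀ (F M : Type) [Field F] [NumberField F] [Field M] [NumberField M] [Algebra F M] (m : ℕ) (z : M),
  0 < m → IsPrimitiveRoot z m → Algebra.adjoin F {z} = ⊤ →
  Nat.card {ψ : DirichletCharacter ℂ m // ∀ (g : M ≃ₐ[F] M) (r : ℕ), g z = z ^ r → ψ ((r : ℕ) : ZMod m) = 1} *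
    Module.finrank F M ≤ m.totient

/-- **NVS** (medium-long): non-vanishing at `1`. For each `ψ` mod `m` take `χ_ψ` (and `L_ψ` if not `Triv F ψ`) from LCH; for the given `ψ₀` take the given `χ₀, L₀`. `1 < s ≤ 2` real, `T_ψ(s) = ∑_{p ∤ m} ψ(p) nd F p p^(-s)`. By LGB and EXL (with CID, CSM: `exp(LSeries (lg χ)) = LSeries (cc χ)`, so
`Re LSeries (lg χ) s = log ‖LSeries (cc χ) s‖`): `|Re T_ψ(s) - log ‖LSeries (cc χ_ψ) s‖| ≤ C` (the finitely many `p ∣ m` give `O(1)`). Orthogonality (`DirichletCharacter.sum_characters_eq`..): `∑_ψ T_ψ(s) = φ(m) ∑_{p ≡ 1 mod m} nd F p p^(-s) ≥ (φ(m)/h) ∑_{p ∤ m} nd M p p^(-s) ≥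
(φ(m)/h) (-log(s-1)) - C`, `h = [M : F]` (MFN, KFV for `M`). Upper bounds for `s → 1+`: `Triv F ψ` (at most `φ(m)/h` characters by TRV and HCD): `Re T_ψ ≤ ∑ nd F p p^(-s) ≤ -log(s-1) + C` (KFV); not trivial: `‖L_ψ(s)‖ ≤ C` on `[1,2]`, so `Re T_ψ ≤ C`; and if `L₀(1) = 0`:
`‖L₀(s)‖ ≤ C (s-1)`, so `Re T_ψ₀ ≤ log(s-1) + C`. The sum gives `(φ(m)/h)(-log(s-1)) - C ≤ (φ(m)/h)(-log(s-1)) + log(s-1) + C`, a contradiction for `s → 1+`. Uses CID CSM EXL LGB LCH KFV MFN TRV HCD. -/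
def NVS_stmt : Prop := ∀ (F M : Type) [Field F] [NumberField F] [Field M] [NumberField M] [Algebra F M] (m : ℕ) (z : M)
  (ψ₀ : DirichletCharacter ℂ m) (χ₀ : Ideal (𝓞 F) → ℂ) (L₀ : ℂ → ℂ), 0 < m → IsPrimitiveRoot z m →
  Algebra.adjoin F {z} = ⊤ → ¬ Triv F ψ₀ → CM χ₀ →
  (∀ p : ℕ, p.Prime → ¬ p ∣ m → cc χ₀ p = ψ₀ ((p : ℕ) : ZMod m) * (nd F p : ℂ)) → Differentiable ℂ L₀ →
  (∀ s : ℂ, 1 < s.re → LSeries (cc χ₀) s = L₀ s) → L₀ 1 ≠ 0

/-- **PAP** (medium). `χ_ψ`, `L_ψ` from LCH. `r` is prime to `m` (`g` is injective, so `z^r` is primitive). `S(s) = ∑_{p ≡ r mod m, p ∤ m} log p * nd F p * p^(-s) = φ(m)⁻¹ ∑_ψ conj ψ(r) ∑_{p ∤ m} ψ(p) log p * nd F p * p^(-s)`. For `Triv F ψ`: `ψ(r) = 1` (TRV), and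
`∑_{p ∤ m} log p * nd F p * p^(-s) ≥ log 2 ∑ nd F p p^(-s) - C → ∞` (KFV; there is at least one such `ψ`, the trivial one). For the others the inner sum is `LSeries (zz χ_ψ) s + O(1) = -L_ψ'(s)/L_ψ(s) + O(1)` (LGB, EXL with CID, CSM) `= O(1)` for `s → 1+` as `L_ψ(1) ≠ 0` (NVS). So `S(s) → ∞`, and
infinitely many `p ≡ r` have `nd F p ≠ 0`. Uses CID CSM EXL LGB LCH KFV TRV NVS. -/
def PAPr_stmt : Prop := PAP_stmt

/-! ## Part 4 -/

/-- the property of `m` for the crossing -/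
def Mp (B m : ℕ) : Prop := 0 < m ∧ ∀ (H : Subgroup (ZMod m)ˣ), H.index ≤ B → H.index ≠ 0 → ∀ (u : (ZMod m)ˣ) (n : ℕ), 0 < n → n ≤ B →
  ∃ h ∈ H, n ∣ orderOf (u * h)

/-- **MCH** (medium, PURE). `m = (∏_{l ≤ B prime} l)^k`, `k` large. `w = 1 + 4 ∏_{l ≤ B} l` (in `(ZMod m)ˣ`): for each prime `l ≤ B` and `j`, `l^a ∣ w^j - 1` implies `l^(a - 3) ∣ j` (lifting the exponent: `Int.emultiplicity_pow_sub_pow`, `padicValNat`). `w' = w^(B!) ∈ H` (the class of `w` in the quotient has order at most `B`).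
Fix `l ≤ B` and `b` with `l^b > B`; write `φ(m) = l^e t`, `l ∤ t`. Say that `j` is bad for `l` if `l^b` does not divide `orderOf (u w'^j)`; then `(u w'^j)^(t l^(b-1)) = 1` (the order divides `φ(m)`). If `j₁ < j₂` are bad then `w^(B! (j₂ - j₁) t l^(b-1)) = 1` mod `m`, so
`l^(k-3) ∣ B! (j₂ - j₁) t l^(b-1)`, impossible for `0 < j₂ - j₁ ≤ B` if `k` is large (`l ∤ t`). So for each `l` at most one `j ∈ {0, .., B}` is bad, and there are fewer than `B + 1` primes `l ≤ B`: some `j` is good for all `l`, and then every `n ≤ B` divides the order (`v_l(n) < b`). `h = w'^j`. -/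
def MCH_stmt : Prop := ∀ B : ℕ, ∃ m : ℕ, Mp B m

/-- **MEX** (short-medium). `M = CyclotomicField m L`; it is a number field, an algebra over `K` through `L`, and Galois over `K`: `L / K` is the splitting field of a separable polynomial `f` over `K` and `M` that of `f (X^m - 1)` (or: every `K`-embedding of `M` in an algebraic closure maps `L` to `L` and `z` to a power of `z`: `Normal`). -/
def MEX_stmt : Prop := ∀ (K L : Type) [Field K] [NumberField K] [Field L] [NumberField L] [Algebra K L] [IsGalois K L] (m : ℕ), 0 < m →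
  ∃ (M : Type) (_ : Field M) (_ : NumberField M) (_ : Algebra K M) (_ : Algebra L M) (_ : IsScalarTower K L M) (z : M),
    IsGalois K M ∧ IsPrimitiveRoot z m ∧ Algebra.adjoin L {z} = ⊤

/-- **GEX** (medium). `κ : Gal(M/K) → (ZMod m)ˣ`, `g z = z^(κ g)` (`IsPrimitiveRoot.autToPow`). `H = κ(Gal(M/L))` (the subgroup of the `g` which are the identity on `L`) has order `[M : L]` (`M / L` is Galois, `κ` is injective on `Gal(M/L)`), and `[M : L] [L : ℚ] = [M : ℚ] ≥ φ(m)`, so its index is at most `[L : ℚ] ≤ B`.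
Let `g₀` be an extension of `σ` to `M` (`AlgEquiv.liftNormal`), `n = orderOf σ ≤ [L : ℚ] ≤ B`, `h = κ t`, `t ∈ Gal(M/L)`, with `n ∣ orderOf (κ(g₀) h)`; `g = g₀ t`. If `g^k z = z` then `κ(g)^k = 1`, so `n ∣ k`, `g^k` is the identity on `L` and fixes `z`: `g^k = 1`. `r` = a representative of `κ g`. -/
def GEX_stmt : Prop := ∀ (B m : ℕ), Mp B m → ∀ (K L M : Type) [Field K] [NumberField K] [Field L] [NumberField L] [Field M] [NumberField M]
  [Algebra K L] [Algebra K M] [Algebra L M] [IsScalarTower K L M] [IsGalois K L] [IsGalois K M] (z : M) (σ : L ≃ₐ[K] L),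
  Module.finrank ℚ L ≤ B → IsPrimitiveRoot z m → Algebra.adjoin L {z} = ⊤ →
  ∃ (g : M ≃ₐ[K] M) (r : ℕ), (∀ x : L, g (algebraMap L M x) = algebraMap L M (σ x)) ∧ g z = z ^ r ∧
    ∀ k : ℕ, (g ^ k) z = z → g ^ k = 1

/-- **FRB** (medium). `F` = the fixed field of `⟨g⟩`, `Gal(M/F) = ⟨g⟩`. (1) `F(z) = M`: an element of `Gal(M/F)` fixing `z` is a power of `g` fixing `z`, so it is `1` (finite group: natural powers). (2) `g` as an `F`-automorphism. (3) Let `N(I) = p`, `p ∤ m`, `p ≡ r mod m`: `I` is a prime; `Q` a prime of `𝓞 M` over `I`;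
`τ ∈ Gal(M/F)` a Frobenius element at `Q` (`IsArithFrobAt.exists_of_isInvariant (𝓞 F) (M ≃ₐ[F] M) Q`; the invariants of `𝓞 M` are `𝓞 F`), `τ x ≡ x^p mod Q` for `x ∈ 𝓞 M`. `τ z = z^p = z^r = g z` (`AlgHom.IsArithFrobAt.apply_of_pow_eq_one`, `m ∉ Q`), so `τ⁻¹ g`, a power of `g`, fixes `z`: `τ = g`. `P = Q ∩ 𝓞 L`;
`P ∩ 𝓞 K = I ∩ 𝓞 K` has norm `p` (`𝓞 K ⧸ (I ∩ 𝓞 K)` embeds in `𝓞 F ⧸ I = 𝔽_p` and is not zero); for `x ∈ 𝓞 L`: `σ x - x^p ∈ Q ∩ 𝓞 L`. -/
def FRB_stmt : Prop := ∀ (K L M : Type) [Field K] [NumberField K] [Field L] [NumberField L] [Field M] [NumberField M]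
  [Algebra K L] [Algebra K M] [Algebra L M] [IsScalarTower K L M] [IsGalois K L] [IsGalois K M] (m r : ℕ) (z : M) (σ : L ≃ₐ[K] L)
  (g : M ≃ₐ[K] M), 0 < m → IsPrimitiveRoot z m → (∀ x : L, g (algebraMap L M x) = algebraMap L M (σ x)) → g z = z ^ r →
  (∀ k : ℕ, (g ^ k) z = z → g ^ k = 1) → Algebra.adjoin L {z} = ⊤ →
  Algebra.adjoin (IntermediateField.fixedField (Subgroup.zpowers g)) {z} = ⊤ ∧
  (∃ g' : M ≃ₐ[IntermediateField.fixedField (Subgroup.zpowers g)] M, ∀ x, g' x = g x) ∧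
  ∀ (p : ℕ) (I : Ideal (𝓞 (IntermediateField.fixedField (Subgroup.zpowers g)))), p.Prime → ¬ p ∣ m → p ≡ r [MOD m] →
    Ideal.absNorm I = p → ∃ P : Ideal (𝓞 L), P.IsPrime ∧ Ideal.absNorm (P.under (𝓞 K)) = p ∧ IsArithFrobAt (𝓞 K) σ P

end Pool.Agent.CH
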