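import Pool.Agent.helper82.CH.SpecA

set_option autoImplicit false

open NumberField Complex Pool.Agent.UN

namespace Pool.Agent.CH

/-- Chebotarev's theorem from the rows of stage 1. -/
theorem CHEB_of (hPAP : PAP_stmt) (hMCH : MCH_stmt) (hMEX : MEX_stmt) (hGEX : GEX_stmt) (hFRB : FRB_stmt) :
    CHEB_stmt := by
  classical
  intro K L _ _ _ _ _ _ σ T
  obtain ⟨m, hm⟩ := hMCH (Module.finrank ℚ L)
  obtain ⟨M, _, _, _, _, _, z, hGal, hz, had⟩ := hMEX K L m hm.1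
  obtain ⟨g, r, hg1, hg2, hg3⟩ := hGEX (Module.finrank ℚ L) m hm K L M z σ le_rfl hz had
  obtain ⟨h1, ⟨g', hg'⟩, h3⟩ := hFRB K L M m r z σ g hm.1 hz hg1 hg2 hg3 had
  have hgz : g' z = z ^ r := by rw [hg' z, hg2]
  obtain ⟨p, I, hp, hpT, hpr, hI⟩ := hPAP (IntermediateField.fixedField (Subgroup.zpowers g)) M m r z g'
    (T ∪ m.primeFactors) hm.1 hz h1 hgz
  have hpm : ¬ p ∣ m := fun h =>
    hpT (Finset.mem_union_right _ (Nat.mem_primeFactors.2 ⟨hp, h, hm.1.ne'⟩))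
  obtain ⟨P, hP1, hP2, hP3⟩ := h3 p I hp hpm hpr hI
  exact ⟨p, P, hp, fun h => hpT (Finset.mem_union_left _ h), hP1, hP2, hP3⟩

end Pool.Agent.CH
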