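import Mathlib

/-!
# Project CH (MP_2e0e07_nt), stage 2, part E: the theorem of Linnik for an abstract system of L-functions

PURE ANALYSIS. RULES. Row `XXX`: file `Pool/Agent/<seat>/CH/XXX.lean`, `import Pool.Agent.helper82.CH.SpecE`, `set_option autoImplicit false`,
`open Complex`, `namespace Pool.Agent.CHE`, theorem line as in the lock note. Auxiliary lemmas are prefixed `XXX_`. No sorry, no straight double quotes,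
no convert / congr!. Every row may use the other `_stmt`s only as the hypotheses named in its line.

The system: a finite abelian group `Y`, coefficients `b y k ≥ 0` (von Mangoldt's function of a number field on the ideals of norm `k` in the class `y`), and for each
character `χ` of `Y` an entire function `E χ` with `-E'/E + [χ = 1]/(s-1) = ∑_k (∑_y χ(y) b y k) k^(-s)`. The theorem (`LIN_stmt`): every class contains more than `e^l` primes up to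
`e^(A l)`, `l` = logarithm of the conductor. Method: Lagarias-Montgomery-Odlyzko (Landau's local lemma, power sums, Deuring-Heilbronn phenomenon).
-/

set_option autoImplicit false

open Complex

namespace Pool.Agent.CHE

/-- von Mangoldt's function -/
noncomputable def VM (k : ℕ) : ℝ := ArithmeticFunction.vonMangoldt k

section defs

variable {Y : Type} [CommGroup Y] [Fintype Y]

/-- the coefficients of the character `χ` -/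
noncomputable def ak (b : Y → ℕ → ℝ) (χ : Y →* ℂˣ) (k : ℕ) : ℂ := ∑ y, ((χ y : ℂˣ) : ℂ) * (b y k : ℂ)

open Classical in
/-- `1` for the trivial character, `0` for the others -/
noncomputable def dl (χ : Y →* ℂˣ) : ℂ := if χ = 1 then 1 else 0

/-- a system of L-functions with constants `C` and logarithmic conductor `l` -/
structure Sys (C l : ℝ) (b : Y → ℕ → ℝ) (E : (Y →* ℂˣ) → ℂ → ℂ) : Prop where
  C1 : 1 ≤ C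
  l1 : 1 ≤ l
  nonneg : ∀ (y : Y) (k : ℕ), 0 ≤ b y k
  bd : ∀ k : ℕ, ∑ y, b y k ≤ C * VM k
  diff : ∀ χ : Y →* ℂˣ, Differentiable ℂ (E χ)
  ne : ∀ (χ : Y →* ℂˣ) (s : ℂ), 1 < s.re → E χ s ≠ 0
  ser : ∀ (χ : Y →* ℂˣ) (s : ℂ), 1 < s.re → LSeries (ak b χ) s = dl χ / (s - 1) - deriv (E χ) s / E χ s
  up : ∀ (χ : Y →* ℂˣ) (s : ℂ), ‖E χ s‖ ≤ Real.exp (C * (1 + ‖s‖) * (l + Real.log (2 + ‖s‖)))
  low : ∀ (χ : Y →* ℂˣ) (t : ℝ), Real.exp (-C) ≤ ‖E χ (2 + t * I)‖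
  one : ∀ χ : Y →* ℂˣ, Real.exp (-(C * l)) ≤ ‖E χ 1‖

/-- the bound for `log |E / E(s₀)|` on the disc of radius `R` around `s₀ = 2 + t₀ i`, `|t₀| ≤ 60` -/
noncomputable def MM (C l R : ℝ) : ℝ := C * (70 + R) * (l + Real.log (70 + R)) + C

/-- the zeros of `E χ` in the disc of radius `R/2` around `2 + t₀ i`, with multiplicities, and the explicit formula for all derivatives -/
structure ZL (C l : ℝ) (b : Y → ℕ → ℝ) (E : (Y →* ℂˣ) → ℂ → ℂ) (χ : Y →* ℂˣ) (t₀ R : ℝ) (N : ℕ) (ρ : Fin N → ℂ) : Prop where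
  cnt : (N : ℝ) ≤ 2 * MM C l R
  zero : ∀ i, E χ (ρ i) = 0
  re1 : ∀ i, (ρ i).re ≤ 1
  dist : ∀ i, ‖ρ i - (2 + t₀ * I)‖ ≤ R / 2
  mult : ∀ a : ℂ, ‖a - (2 + t₀ * I)‖ ≤ R / 2 → Nat.card {i // ρ i = a} = analyticOrderNatAt (E χ) a
  form : ∀ s : ℂ, 1 < s.re → ‖s - (2 + t₀ * I)‖ ≤ R / 4 → ∀ j : ℕ,
    ‖LSeries (fun k => ak b χ k * ((Real.log k : ℂ) ^ j / (j.factorial : ℂ))) s - dl χ / (s - 1) ^ (j + 1) +
      ∑ i, 1 / (s - ρ i) ^ (j + 1)‖ ≤ 6 * MM C l R * (j + 1) * (8 / R) ^ (j + 1)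

end defs

/-! ## Part 1: general lemmas -/

/-- **LLM** (medium-long): LANDAU'S LOCAL LEMMA with all derivatives. `f` has finitely many zeros in the closed disc of radius `R/2` (`f s₀ ≠ 0`, identity theorem, compactness); list them with multiplicities.
(1) Count: the product of `f` with the factors `(R² - conj(ρ_i - s₀)(s - s₀)) / (R (s - ρ_i))` is entire near the closed disc, of absolute value `≤ e^M |f(s₀)|` on the circle, and `≥ |f(s₀)| 2^N` in absolute value at `s₀`; so `2^N ≤ e^M`.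
(2) `g(s) = f(s)/f(s₀) ∏ (s₀ - ρ_i)/(s - ρ_i)` (removable singularities; see `Complex.canonicalFactor`, `AnalyticAt` order: `f = ∏ (s - ρ_i) h`, `h` without zeros in the disc), `|g| ≤ e^M` on the circle `|s - s₀| = R` (`|s - ρ_i| ≥ R/2 ≥ |s₀ - ρ_i|`), hence in the disc; `g ≠ 0` for
`|s - s₀| < R/2` (even `≤`), `g(s₀) = 1`. `G` = logarithm of `g` on the open disc of radius `R/2`, `G(s₀) = 0`, `Re G ≤ M`; `Complex.borelCaratheodory_zero`: `|G| ≤ 6 M` for `|s - s₀| ≤ 3R/8` (if `M = 0` use `M + ε`); Cauchy on the disc of radius `R/8` around `s`: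
`|G^(j+1)(s)| / (j+1)! ≤ 6 M (8/R)^(j+1)`. `f'/f = ∑ 1/(s - ρ_i) + G'` near `s`; `(-1)^j/j!` times the `j`-th derivative of `1/(s - ρ)` is `(s - ρ)^(-j-1)`. Existing lemmas: `Pool.Agent.helper6.LD` (`h13_exists_log`, `h13_count`), Mathlib `Analysis/Complex/BorelCaratheodory`, `BranchLogRoot`,
`CanonicalDecomposition`, `AnalyticOnNhd` divisor / `MeromorphicOn.extract_zeros_poles`. -/
def LLM_stmt : Prop := ∀ (f : ℂ → ℂ) (s₀ : ℂ) (R M : ℝ), Differentiable ℂ f → 0 < R → f s₀ ≠ 0 →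
  (∀ s : ℂ, ‖s - s₀‖ ≤ R → ‖f s‖ ≤ Real.exp M * ‖f s₀‖) → ∃ (N : ℕ) (ρ : Fin N → ℂ), (N : ℝ) ≤ 2 * M ∧
    (∀ i, f (ρ i) = 0 ∧ ‖ρ i - s₀‖ ≤ R / 2) ∧
    (∀ a : ℂ, ‖a - s₀‖ ≤ R / 2 → Nat.card {i // ρ i = a} = analyticOrderNatAt f a) ∧
    ∀ s : ℂ, ‖s - s₀‖ ≤ R / 4 → f s ≠ 0 → ∀ j : ℕ,
      ‖(-1) ^ j / (j.factorial : ℂ) * iteratedDeriv j (fun w => deriv f w / f w) s - ∑ i, 1 / (s - ρ i) ^ (j + 1)‖ ≤
        6 * M * (j + 1) * (8 / R) ^ (j + 1)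

/-- **TPS** (medium): POWER SUMS (Lagarias-Montgomery-Odlyzko, Theorem 4.2). Dividing by `|z i₀|` let `|z i₀| = 1`, `z i₀ = e^(iθ)`; `M ≥ 1`; `K = ⌊24 M⌋ ≥ 24`, `w_k = 1 - k/(K+1)`, `1 ≤ k ≤ K`.
`F(z) = ∑ w_k Re z^k`. Fejér: `1 + 2 F(e^(iα)) = |∑_{j ≤ K} e^(ijα)|² / (K+1) ≥ 0`. `F + 1/2` is harmonic, `≥ 0` on the unit circle, hence in the disc, `F(0) = 0`: Harnack gives `F(z) ≥ -|z|/(1+|z|) ≥ -|z|` (or: for `|z| ≤ 1` directly: `F + 1/2 = Re` of an analytic function with nonnegative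
real part and value `1/2` at `0`, Schwarz / Borel-Caratheodory). If `Re s_k < 1/8` for all `k ≤ K` (`s_k = ∑_i z_i^k`), then `S = ∑ w_k (1 + cos kθ) Re s_k < (1/8) ∑ w_k (1 + cos kθ) ≤ (1/8)(K/2 + K/2) = K/8 ≤ 3M`. But the part of `z i₀` in `S` is
`∑ w_k (cos kθ + cos² kθ) = ∑ w_k (1/2 + cos kθ + (cos 2kθ)/2) ≥ K/4 - 1/2 - 1/4`, that of any other `z`: `F(z) + F(z e^(iθ))/2 + F(z e^(-iθ))/2 ≥ -2|z|`; so `S ≥ K/4 - 3/4 - 2(M - 1) ≥ 4M + 1` (`K ≥ 24M - 1`), a contradiction. -/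
def TPS_stmt : Prop := ∀ (N : ℕ) (z : Fin N → ℂ) (i₀ : Fin N) (M : ℝ), z i₀ ≠ 0 → (∀ i, ‖z i‖ ≤ ‖z i₀‖) →
  ∑ i, ‖z i‖ ≤ M * ‖z i₀‖ → ∃ k : ℕ, 1 ≤ k ∧ (k : ℝ) ≤ 24 * M ∧ 1 / 8 * ‖z i₀‖ ^ k ≤ (∑ i, z i ^ k).re

/-- **VMS** (short-medium). `∑ Λ(k) k^(-1-δ) = -ζ'/ζ(1+δ) ≤ K/δ` (`ArithmeticFunction.LSeries_vonMangoldt_eq_deriv_riemannZeta_div`, the pole of `ζ`: `(s-1) ζ(s)` is analytic and nonzero at `1`; compactness of `[0,1]`), or from Chebyshev's bound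
(`Chebyshev.psi_le..` in Mathlib) by dyadic blocks. -/
def VMS_stmt : Prop := ∃ K : ℝ, 1 ≤ K ∧ ∀ δ : ℝ, 0 < δ → δ ≤ 1 →
  Summable (fun k : ℕ => VM k * (k : ℝ) ^ (-(1 + δ))) ∧ ∑' k : ℕ, VM k * (k : ℝ) ^ (-(1 + δ)) ≤ K / δ

/-- **THB** (medium): the weight is concentrated. `v = δ log k`; the term is `δ Λ(k)/k * v^j e^(-v)/j!` (`J = j + 1`). HEAD `v < J/60`: `v^j/j! ≤ (J/60)^j (e/j)^j = (e J/(60 j))^j ≤ (2e/60)^j ≤ 11^(-j)` for `j ≥ 1` (`j! ≥ (j/e)^j`), and `δ ∑ Λ(k) k^(-1-δ) ≤ K` (VMS).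
TAIL `v > 100 J`: `v^j e^(-v/2)` is decreasing for `v ≥ 2j`, so `v^j e^(-v/2)/j! ≤ (100 J)^j e^(-50 J) (e/j)^j ≤ (200 e)^j e^(-50 J) ≤ 11^(-j)`, and `∑ δ Λ(k) k^(-1-δ/2) ≤ 2K` (VMS with `δ/2`). -/
def THB_stmt : Prop := ∃ K : ℝ, 1 ≤ K ∧ ∀ (δ : ℝ) (j : ℕ), 0 < δ → δ ≤ 1 → 1 ≤ j →
  ∑' k : ℕ, (if ((j + 1 : ℕ) : ℝ) / 60 ≤ δ * Real.log k ∧ δ * Real.log k ≤ 100 * ((j + 1 : ℕ) : ℝ) then 0 else
    δ ^ (j + 1) * (VM k * (Real.log k ^ j / (j.factorial : ℝ)) * (k : ℝ) ^ (-(1 + δ)))) ≤ K * 11⁻¹ ^ j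

/-- **NPR** (short-medium): prime powers. The sum over the `k ≥ x` which are not prime of `Λ(k)/k` is at most `∑_{p^i ≥ x, i ≥ 2} (log p) p^(-i) ≤ K x^(-1/3)`: `p^(-i) ≤ x^(-1/3) p^(-2i/3)` and `∑_p ∑_{i ≥ 2} log p * p^(-2i/3) ≤ ∑_p C log p * p^(-4/3) < ∞`. (Finite sums only.) -/
def NPR_stmt : Prop := ∃ K : ℝ, 1 ≤ K ∧ ∀ (x : ℝ) (S : Finset ℕ), 1 ≤ x → (∀ k ∈ S, ¬ k.Prime ∧ x ≤ (k : ℝ)) →
  ∑ k ∈ S, VM k / k ≤ K * x ^ (-(1 / 3) : ℝ)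

/-! ## Part 2: the zeros of a system -/

/-- **EFX** (medium). LLM for `f = E χ`, `s₀ = 2 + t₀ i`, `M = MM C l R`: on the disc `1 + ‖s‖ ≤ 64 + R`, `‖E χ s‖ ≤ exp(C (64+R)(l + log (65+R)))` (`up`), `‖E χ s₀‖ ≥ e^(-C)` (`low`). Zeros have real part `≤ 1` (`ne`). `form`: for `1 < Re s` the function `LSeries (ak b χ)` is
`dl χ/(w-1) - E'/E(w)` near `s` (`ser`), `LSeries (ak (log)^j) = (-1)^j iteratedDeriv j (LSeries (ak))` (`LSeries_iteratedDeriv`; summable for `Re > 1` by `bd`: `‖ak‖ ≤ ∑_y b y k ≤ C Λ(k)`, `ArithmeticFunction.LSeriesSummable_vonMangoldt`; `‖χ y‖ = 1`), and `(-1)^j/j!` times the `j`-th derivative of `1/(w-1)` is `(s-1)^(-j-1)`. Uses LLM. -/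
def EFX_stmt : Prop := ∀ (Y : Type) [CommGroup Y] [Fintype Y] (C l : ℝ) (b : Y → ℕ → ℝ) (E : (Y →* ℂˣ) → ℂ → ℂ), Sys C l b E →
  ∀ (χ : Y →* ℂˣ) (t₀ R : ℝ), |t₀| ≤ 60 → 4 ≤ R → ∃ (N : ℕ) (ρ : Fin N → ℂ), ZL C l b E χ t₀ R N ρ

/-- **SQ1** (medium): the zeros near `1 + δ`. `s = 1 + δ`, `form` with `j = 0`, `R = 40`, `t₀ = 0`: `∑ Re 1/(s - ρ_i) ≤ ‖LSeries (ak b χ) s‖ + 1/δ + 6 MM (1/5) ≤ C K/δ + 1/δ + K' l` (VMS, `bd`; `MM C l 40 ≤ K'' l` as `l ≥ 1`); and `Re 1/(s - ρ) = (1 + δ - Re ρ)/|s - ρ|² ≥ δ/|s - ρ|²`. Uses VMS. -/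
def SQ1_stmt : Prop := ∀ C : ℝ, ∃ K : ℝ, 1 ≤ K ∧ ∀ (Y : Type) [CommGroup Y] [Fintype Y] (l : ℝ) (b : Y → ℕ → ℝ)
  (E : (Y →* ℂˣ) → ℂ → ℂ), Sys C l b E → ∀ (χ : Y →* ℂˣ) (N : ℕ) (ρ : Fin N → ℂ), ZL C l b E χ 0 40 N ρ →
    ∀ δ : ℝ, 0 < δ → δ ≤ 1 → ∑ i, 1 / ‖(1 + δ : ℂ) - ρ i‖ ^ 2 ≤ K * (1 / δ ^ 2 + l / δ)

/-- **SQ2** (medium): all zeros, uniformly in `R`. `s₀ = 2 + t₀ i`; `‖s₀ - ρ_i‖ ≥ 1`. For `1 ≤ r ≤ R/2` the number of `i` with `‖ρ_i - s₀‖ ≤ r` is the sum of the orders of the zeros in that disc (`mult`), hence equal to the length of the list of EFX with radius `max(2r, 4)`, which is `≤ 2 MM C l (max(2r,4)) ≤ K r (l + log(1+r))`.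
Dyadic: `∑_i ‖s₀ - ρ_i‖^(-2) ≤ ∑_{h ≥ 0} 4^(-h) #{i : 2^h ≤ ‖ρ_i - s₀‖ < 2^(h+1)} ≤ ∑_h 4^(-h) K 2^(h+1) (l + h + 2) ≤ K' l`. Uses EFX. -/
def SQ2_stmt : Prop := ∀ C : ℝ, ∃ K : ℝ, 1 ≤ K ∧ ∀ (Y : Type) [CommGroup Y] [Fintype Y] (l : ℝ) (b : Y → ℕ → ℝ)
  (E : (Y →* ℂˣ) → ℂ → ℂ), Sys C l b E → ∀ (χ : Y →* ℂˣ) (t₀ R : ℝ) (N : ℕ) (ρ : Fin N → ℂ), |t₀| ≤ 60 → 4 ≤ R →
    ZL C l b E χ t₀ R N ρ → ∑ i, 1 / ‖(2 + t₀ * I : ℂ) - ρ i‖ ^ 2 ≤ K * l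

/-- **CNJ** (short-medium): the zeros of `E χ⁻¹` are the conjugates of those of `E χ`. `g(s) = conj (E χ⁻¹ (conj s))` is entire (`DifferentiableAt.conj_conj` or similar); `χ⁻¹ y = conj (χ y)` (roots of unity), `b` is real, so `LSeries (ak b χ⁻¹) (conj s) = conj (LSeries (ak b χ) s)`, hence by `ser`
`g'/g = E'/E` for `Re s > 1`; so `(g/E)' = 0` there, `g = c E` on `Re s > 1`, `c ≠ 0`, and everywhere (identity theorem: `AnalyticOnNhd.eq_of_eventuallyEq`). -/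
def CNJ_stmt : Prop := ∀ (Y : Type) [CommGroup Y] [Fintype Y] (C l : ℝ) (b : Y → ℕ → ℝ) (E : (Y →* ℂˣ) → ℂ → ℂ), Sys C l b E →
  ∀ (χ : Y →* ℂˣ) (ρ : ℂ), E χ ρ = 0 → E χ⁻¹ ((starRingEnd ℂ) ρ) = 0

/-- the zeros in the disc `|s - 2| ≤ 20` for all characters at once: lists `ρ χ i`, `i < N χ` -/
def Lists {Y : Type} [CommGroup Y] [Fintype Y] (C l : ℝ) (b : Y → ℕ → ℝ) (E : (Y →* ℂˣ) → ℂ → ℂ) (N : (Y →* ℂˣ) → ℕ)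
    (ρ : (χ : Y →* ℂˣ) → Fin (N χ) → ℂ) : Prop := ∀ χ, ZL C l b E χ 0 40 (N χ) (ρ χ)

/-- **ZFA** (medium): at most one zero very near `1`. `s = 1 + δ`, `δ = η/l`, `c = η/10`. Orthogonality: `∑_χ ak b χ k = |Y| b 1 k ≥ 0`, so (`form`, `j = 0`, real parts, all characters; there are `card Y` characters) `0 ≤ 1/δ - ∑_χ ∑_i Re 1/(s - ρ_i) + card Y * 6 MM C l 40 /5`; all `Re 1/(s - ρ_i) ≥ 0`; for the
two zeros `‖s - ρ‖ ≤ 1.1 δ`, `Re (s - ρ) ≥ δ`, so `Re 1/(s - ρ) ≥ 0.82/δ`. So `0.64 l/η = 0.64/δ ≤ K l`, false if `η` is small (depending on `q`, `C`). -/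
def ZFA_stmt : Prop := ∀ (q : ℕ) (C : ℝ), ∃ c : ℝ, 0 < c ∧ c < 1 ∧ ∀ (Y : Type) [CommGroup Y] [Fintype Y] (l : ℝ) (b : Y → ℕ → ℝ)
  (E : (Y →* ℂˣ) → ℂ → ℂ) (N : (Y →* ℂˣ) → ℕ) (ρ : (χ : Y →* ℂˣ) → Fin (N χ) → ℂ), Fintype.card Y ≤ q → Sys C l b E →
  Lists C l b E N ρ → ∀ p p' : Σ χ, Fin (N χ), ‖1 - ρ p.1 p.2‖ ≤ c / l → ‖1 - ρ p'.1 p'.2‖ ≤ c / l → p = p'

/-- **ZFB** (medium): zeros with imaginary part. `ρ = β + iγ` a zero of `E χ`, `c₁/l ≤ |γ| ≤ 20`, `β > 1 - c/l` is to be refuted (if `β ≤ 1/2` nothing to show). `δ = η/l`. `0 ≤ ∑ |Y| b 1 k k^(-1-δ) (3 + 4 cos(γ log k) + cos(2γ log k))`; by EFX with `R = 40` at `t₀ = 0, γ, 2γ` (`form`, `j = 0`; `s = 1 + δ + i t₀` has distance `1 - δ` from `2 + i t₀`), real parts, all characters, dropping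
the zeros except `ρ` in the list of `χ` at `t₀ = γ` (`mult`: the order is `≥ 1`): `0 ≤ 3/δ + 4 Re 1/(δ + iγ) + Re 1/(δ + 2iγ) - 4/(1 + δ - β) + K l`, and `Re 1/(δ + iγ) = δ/(δ²+γ²) ≤ δ/γ² ≤ η l/c₁²`. If `η` is small (w.r.t. `c₁`, `K`) the sum of the last two and `K l` is `≤ 1/(2δ)`, so `4/(1+δ-β) ≤ 3.5/δ`, `1 - β ≥ δ/7`. Uses EFX. -/
def ZFB_stmt : Prop := ∀ (q : ℕ) (C c₁ : ℝ), 0 < c₁ → ∃ c : ℝ, 0 < c ∧ c < 1 ∧ ∀ (Y : Type) [CommGroup Y] [Fintype Y] (l : ℝ) (b : Y → ℕ → ℝ)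
  (E : (Y →* ℂˣ) → ℂ → ℂ), Fintype.card Y ≤ q → Sys C l b E → ∀ (χ : Y →* ℂˣ) (ρ : ℂ), E χ ρ = 0 → c₁ / l ≤ |ρ.im| → |ρ.im| ≤ 20 →
    ρ.re ≤ 1 - c / l

/-- **ZFR** (medium): the zero free region. `c₀` from ZFA, `c₁ = c₀/2`, `c'` from ZFB with `c₁`, `c = min(c₀/2, c')`. A zero in the lists has `|Im| ≤ 20`. If `Re ρ > 1 - c/l` then `|Im ρ| < c₁/l` (ZFB), so `‖1 - ρ‖ ≤ c₀/l`: at most one such index (ZFA). `E χ⁻¹` vanishes at `conj ρ` (CNJ), which is in the disc, so it is in the list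
of `χ⁻¹` (`mult`; order `≥ 1`: `E χ⁻¹` is not identically zero, analytic) and is also near `1`: the same index, so `χ⁻¹ = χ` and `conj ρ = ρ`. Uses ZFA, ZFB, CNJ. -/
def ZFR_stmt : Prop := ∀ (q : ℕ) (C : ℝ), ∃ c : ℝ, 0 < c ∧ c < 1 ∧ ∀ (Y : Type) [CommGroup Y] [Fintype Y] (l : ℝ) (b : Y → ℕ → ℝ)
  (E : (Y →* ℂˣ) → ℂ → ℂ) (N : (Y →* ℂˣ) → ℕ) (ρ : (χ : Y →* ℂˣ) → Fin (N χ) → ℂ), Fintype.card Y ≤ q → Sys C l b E →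
  Lists C l b E N ρ → ∀ p : Σ χ, Fin (N χ), 1 - c / l < (ρ p.1 p.2).re → (ρ p.1 p.2).im = 0 ∧ p.1 ^ 2 = 1 ∧
    ∀ p' : Σ χ, Fin (N χ), p' ≠ p → (ρ p'.1 p'.2).re ≤ 1 - c / l

/-- **SIE** (short-medium): a real zero is not too near `1`. `1/2 ≤ β ≤ 1`, `E χ β = 0`, so `e^(-C l) ≤ |E χ 1| = |E χ 1 - E χ β| ≤ (1 - β) max |E'|` on `[1/2, 1]`, and `|E'| ≤ max_{|s| ≤ 2} |E| ≤ exp(3C(l + log 4)) ≤ e^(9 C l)` (Cauchy, radius `1`). For `β < 1/2` trivial; `β > 1` is impossible. -/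
def SIE_stmt : Prop := ∀ (Y : Type) [CommGroup Y] [Fintype Y] (C l : ℝ) (b : Y → ℕ → ℝ) (E : (Y →* ℂˣ) → ℂ → ℂ), Sys C l b E →
  ∀ (χ : Y →* ℂˣ) (β : ℝ), E χ (β : ℂ) = 0 → Real.exp (-(20 * C * l)) ≤ 1 - β

/-- **DHR** (medium-long): THE DEURING-HEILBRONN PHENOMENON. `χ₁ = p₁.1` (real, `χ₁² = 1`), `β₁ = ρ p₁` real, `λ = (1 - β₁) l < c`. `p ≠ p₁`, `χ = p.1`, `ρ p = β + iγ` (`|γ| ≤ 20`). Let `R` be so large that `6 MM C l R (J) (8/R)^J ≤ (1 - β₁) 4^(-J)` for all `J ≥ 2` (possible: `MM ≤ K R (l + log R)`, `(8/R)^J R log R..`; `J (32/R)^J ≤ 2 (32/R)^2` for large `R`).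
Let `J = 2k`, `k ≥ 1`. Lists from EFX (radius `R`) for the four pairs `(φ, s) = (1, 2), (χ₁, 2), (χ, 2 + iγ), (χ χ₁, 2 + iγ)`. `0 ≤ ∑_m (log m)^(J-1)/(J-1)! m^(-2) ∑_y b y m (1 + χ₁(y)) (1 + Re(χ(y) m^(-iγ)))` = the real part of the sum of the four `LSeries (ak b φ (log)^(J-1)/(J-1)!) s`
`= ∑_φ (dl φ/(s-1)^J - ∑_i (s - ρ_i)^(-J)) + error`, `|error| ≤ 4 (1 - β₁) 4^(-J)`. Remove from the list of each pair with `φ = χ₁` ONE occurrence of `β₁` (`mult`). The poles and the removed zeros: for the pairs at `s = 2`: `1 + [χ₁ = 1]` poles `1/1^J` and as many zeros `1/(2 - β₁)^J`; at `s = 2 + iγ`: `[χ = 1] + [χ = χ₁]` poles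
`(1 + iγ)^(-J)` and as many zeros `(2 + iγ - β₁)^(-J)`. Since `|w^(-J) - (w + x)^(-J)| ≤ J x` for `Re w ≥ 1`, `x ≥ 0`, their sum is at most `4 J (1 - β₁)`. The remaining zeros `z_n = (s - ρ_n)^(-2)` (all four lists, at most the four with multiplicity) contain `(2 - β)^(-2)` (`ρ p` in the list of `(χ, 2 + iγ)`: if `χ = χ₁` and `ρ p = β₁`
then the order is at least two, because `p ≠ p₁` are two indices of the same list or.. `mult` of the list at `t₀ = 0`). So for all `k ≥ 1`: `Re ∑ z_n^k ≤ 8k(1 - β₁) + 4(1 - β₁) ≤ 12 k (1 - β₁)`. TPS for the largest `|z_n| =: |z|`, `1 ≥ |z| ≥ (2 - β)^(-2)`; `∑ |z_n| ≤ 4 K l` (SQ2). If `β ≤ 0` nothing to prove (`c` small: `1 - β ≥ 1`, while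
`(c/l) log(c/λ) ≤ (c/l)(20 C l + ..) ≤ 1` by SIE); so `|z| ≥ 1/4`, `M = 16 K l`: some `k ≤ 24 * 16 K l` has `(1/8)(2 - β)^(-2k) ≤ (1/8)|z|^k ≤ 12 k (1 - β₁) ≤ K' λ`. `(2 - β)^(-2k) ≥ e^(-2k(1 - β)) ≥ e^(-K''l(1 - β))`. So `1 - β ≥ (1/(K'' l)) log(1/(8 K' λ))`. `c` = small constant. Uses EFX, TPS, SQ2, SIE. -/
def DHR_stmt : Prop := ∀ (q : ℕ) (C : ℝ), ∃ c : ℝ, 0 < c ∧ c < 1 ∧ ∀ (Y : Type) [CommGroup Y] [Fintype Y] (l : ℝ) (b : Y → ℕ → ℝ)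
  (E : (Y →* ℂˣ) → ℂ → ℂ) (N : (Y →* ℂˣ) → ℕ) (ρ : (χ : Y →* ℂˣ) → Fin (N χ) → ℂ), Fintype.card Y ≤ q → Sys C l b E →
  Lists C l b E N ρ → ∀ p₁ p : Σ χ, Fin (N χ), p ≠ p₁ → p₁.1 ^ 2 = 1 → (ρ p₁.1 p₁.2).im = 0 →
    (1 - (ρ p₁.1 p₁.2).re) * l < c →
    c / l * Real.log (c / ((1 - (ρ p₁.1 p₁.2).re) * l)) ≤ 1 - (ρ p.1 p.2).re

/-! ## Part 3: primes in the classes -/

/-- the weighted sum over the class `y` -/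
noncomputable def Sy {Y : Type} (b : Y → ℕ → ℝ) (y : Y) (δ : ℝ) (j : ℕ) : ℝ :=
  ∑' k : ℕ, δ ^ (j + 1) * (b y k * (Real.log k ^ j / (j.factorial : ℝ)) * (k : ℝ) ^ (-(1 + δ)))

/-- **MB1** (medium): the main inequality. Orthogonality: `|Y| Sy b y δ j = ∑_χ conj χ(y) δ^J LSeries (ak b χ (log)^j/j!) (1 + δ)`, `J = j + 1` (absolutely convergent); `form` (`R = 40`, `‖1 + δ - 2‖ ≤ 1 ≤ 10`): the term of `χ = 1` gives `δ^J/δ^J = 1`, the errors at most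
`|Y| δ^J 6 MM C l 40 J (1/5)^J ≤ K l J δ (δ/5)^j`. Zeros with `1 - Re ρ ≥ κ`: `|1 + δ - ρ| ≥ δ + κ` and `|1 + δ - ρ| ≥ δ`, so `(δ/|1+δ-ρ|)^J ≤ (δ/(δ+κ))^(J-2) δ²/|1+δ-ρ|²`; the sum of the last factor is at most `K (1 + δ l)` for each `χ` (SQ1). `e` = the exceptional indices, for which the term is kept. Uses SQ1. -/
def MB1_stmt : Prop := ∀ (q : ℕ) (C : ℝ), ∃ K : ℝ, 1 ≤ K ∧ ∀ (Y : Type) [CommGroup Y] [Fintype Y] (l : ℝ) (b : Y → ℕ → ℝ)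
  (E : (Y →* ℂˣ) → ℂ → ℂ) (N : (Y →* ℂˣ) → ℕ) (ρ : (χ : Y →* ℂˣ) → Fin (N χ) → ℂ), Fintype.card Y ≤ q → Sys C l b E →
  Lists C l b E N ρ → ∀ (e : Finset (Σ χ, Fin (N χ))) (κ δ : ℝ) (j : ℕ) (y : Y), 0 ≤ κ → 0 < δ → δ ≤ 1 → 1 ≤ j →
    (∀ p, p ∉ e → κ ≤ 1 - (ρ p.1 p.2).re) →
    1 - (∑ p ∈ e, (starRingEnd ℂ) ((p.1 y : ℂˣ) : ℂ) * ((δ : ℂ) / (1 + δ - ρ p.1 p.2)) ^ (j + 1)).re -
      K * (1 + δ * l) * (δ / (δ + κ)) ^ (j - 1) - K * l * (j + 1) * δ * (δ / 5) ^ j ≤ Fintype.card Y * Sy b y δ j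

/-- **LIN** (medium-long): THE THEOREM OF LINNIK. Lists from EFX. Constants depend on `q`, `C` only. Let `c₂` be from ZFR, `c₃` from DHR (replace both by the minimum; a smaller constant in DHR is allowed because `x ↦ x log(x/λ)` is increasing for `x ≥ λ`). Case A: no index with `Re ρ > 1 - c₂/l`: `e = ∅`, `Λ₁ = 1`. Case B: there is exactly one, `p₁`, real `β₁`,
`χ₁² = 1`; `λ = (1 - β₁) l < c₂`, `e = {p₁}`, `Λ₁ = max(1, log(1/λ))`. In both cases `κ = c₄ Λ₁/l` works: `1 - Re ρ ≥ c₂/l` (ZFR) and `≥ (c₃/l) log(c₃/λ)` (DHR; for `λ < c₃²` this is `≥ (c₃/2l) log(1/λ)`, for `λ ≥ c₃²` use `c₂/l`). `λ ≥ e^(-20 C l)` (SIE, `l ≥ 1`), so `Λ₁ ≤ 20 C l + 1`.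
Let `a₀ ≥ 10` and `A'` be large constants, `j + 1 = J = ⌈a₀ Λ₁⌉ + 2`, `A₀ = a₀ A'`, `δ = J/(A₀ l) ≤ 1` (if `A' ≥ 20 C + 4`). MB1: `κ/δ ≥ c₄ A'/2`, take `1 + c₄ A'/2 ≥ e⁴`: the zeros contribute at most `K (1 + J/A₀) e^(-4(J-2)) ≤ K' e^(-3 a₀ Λ₁)`; the last term is `≤ K J² 5^(-(J-1)) ≤ K' e^(-a₀ Λ₁)`. The main term: `1` in case A; in case B
(`χ₁(y) = ± 1`, the exceptional term is `χ₁(y) (δ/(δ + 1 - β₁))^J`, real) at least `1 - (1 + (1-β₁)/δ)^(-J) ≥ min(1/2, J(1-β₁)/(2δ)) = min(1/2, A₀ λ/2) ≥ e^(-Λ₁)/2` (`A₀ ≥ 1`, `λ ≥ e^(-Λ₁)`). With `a₀` large all errors (also THB: `K 11^(-j)` times `C`) are together at most `e^(-Λ₁)/4`. So the part of the sum `|Y| Sy` over the `k` with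
`J/60 ≤ δ log k ≤ 100 J`, i.e. `x₀ = e^(A₀ l/60) ≤ k ≤ x = e^(100 A₀ l)`, is at least `e^(-Λ₁)/4 ≥ e^(-20Cl - 1)/4`; the weight is `δ (v^j e^(-v)/j!)/k ≤ 1/k`. The `k` which are not prime contribute at most `C K x₀^(-1/3)` (NPR), negligible if `A₀` is large. So `∑_{p prime in [x₀,x]} b y p/p ≥ e^(-20Cl-1)/(8q)`; `b y p ≤ C log p ≤ 100 C A₀ l`,
`1/p ≤ 1/x₀`: the number of these `p` with `b y p ≠ 0` is at least `x₀ e^(-20Cl-1)/(800 q C A₀ l) > e^l` if `A₀` is large. `A = 100 A₀`. Uses EFX ZFR SIE DHR MB1 THB NPR. -/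
def LIN_stmt : Prop := ∀ (q : ℕ) (C : ℝ), ∃ A : ℝ, 1 ≤ A ∧ ∀ (Y : Type) [CommGroup Y] [Fintype Y] (l : ℝ) (b : Y → ℕ → ℝ)
  (E : (Y →* ℂˣ) → ℂ → ℂ), Fintype.card Y ≤ q → Sys C l b E → ∀ y : Y,
    Real.exp l < ({p : ℕ | p.Prime ∧ (p : ℝ) ≤ Real.exp (A * l) ∧ b y p ≠ 0}.ncard : ℝ)

end Pool.Agent.CHE
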