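import Pool.Agent.helper82.CH.SpecE

/-!
# Project CH (MP_2e0e07_nt), stage 2, part E2: lower bound at `s = 1`

PURE ANALYSIS. Rules as in SpecE (file `Pool/Agent/<seat>/CH/XXX.lean`, namespace `Pool.Agent.CHE`, `import Pool.Agent.helper82.CH.SpecE2`; characters: `import Pool.Agent.helper82.CH.Ort`).
Idea: `Q(s) = ∏_χ E χ s = (s-1) exp(nonnegative Dirichlet series)` vanishes at `s = -2` (trivial zero), so its Taylor coefficients at `2` cannot all be close to `Q(1)`. No class number formula, no regulator.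
-/

set_option autoImplicit false

open Complex

namespace Pool.Agent.CHE

/-- **RSA** (medium). `κ = Z 1`, `h = dslope Z 1` (entire: `Complex.differentiableOn_dslope`; `h s = (Z s - κ)/(s - 1)` for `s ≠ 1`). Near `2`: `f s = Z s/(s-1) = h s + κ/(s-1)`, and the `k`-th derivative of `1/(s-1)` at `2` is `(-1)^k k!`, so `iteratedDeriv k h 2 = (-1)^k k! (b k - κ)`.
On the circle `‖s - 2‖ = 5` we have `‖s - 1‖ ≥ 4`, `‖h‖ ≤ 2 e^G/4 ≤ e^G`; Cauchy: `‖b k - κ‖ ≤ e^G 5^(-k)` (`Complex.norm_iteratedDeriv_le_of_forall_mem_sphere_norm_le`). Taylor series of the entire function `h` at the point `-2` (`Complex.hasSum_taylorSeries_of_entire` or `Complex.taylorSeries_eq_of_entire`): `κ/3 = h(-2) = ∑_k (b k - κ) 4^k`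
(`h(-2) = (0 - κ)/(-3)`). Take real parts, `κ' = Re κ`. Let `N` be natural with `5 e^G (4/5)^N ≤ 1/2`, `N ≤ 4.5 G + 11.5` (`N = ⌈(log 10 + G)/log(5/4)⌉`, `log(5/4) ≥ 0.223`). The terms `k ≥ N` contribute at most `e^G ∑_{k ≥ N} (4/5)^k = 5 e^G (4/5)^N ≤ 1/2`, the terms `k < N` at least `1 - κ' (4^N - 1)/3` (`b 0 ≥ 1`, `b k ≥ 0`). So
`κ'/3 ≥ 1/2 - κ' (4^N - 1)/3`, `κ' 4^N ≥ 3/2`, `‖Z 1‖ ≥ κ' ≥ (3/2) 4^(-N) ≥ e^(-24 G)` (`N log 4 ≤ 1.39 (4.5 G + 11.5) ≤ 6.3 G + 16 ≤ 24 G`). -/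
def RSA_stmt : Prop := ∀ (Z f : ℂ → ℂ) (b : ℕ → ℝ) (G : ℝ), 1 ≤ G → Differentiable ℂ Z →
  (∀ s : ℂ, ‖s - 2‖ ≤ 5 → ‖Z s‖ ≤ Real.exp G) → Z (-2) = 0 → (∀ s : ℂ, 1 < s.re → Z s = (s - 1) * f s) →
  (∀ k, 0 ≤ b k) → 1 ≤ b 0 → (∀ k : ℕ, iteratedDeriv k f 2 = (-1) ^ k * (k.factorial : ℂ) * (b k : ℂ)) →
  Real.exp (-(24 * G)) ≤ ‖Z 1‖

/-- **RSB** (medium). `g = LSeries w` on `Re s > 1`. `iteratedDeriv k g 2 = (-1)^k LSeries (log^k w) 2` (`LSeries_iteratedDeriv`; the abscissa is at most `1`: `LSeries.abscissaOfAbsConv_le_of_forall_lt_LSeriesSummable'`), a nonnegative real number up to the sign `(-1)^k` (terms `w j (log j)^k j^(-2)`).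
`f = exp g`, `f' = g' f` on the half plane, so by Leibniz (`iteratedDeriv_succ'`, `iteratedDeriv_mul` or `iteratedDerivWithin_mul`, finite sums with binomial coefficients) `(-1)^(k+1) f^(k+1)(2) = ∑_i C(k,i) [(-1)^(i+1) g^(i+1)(2)] [(-1)^(k-i) f^(k-i)(2)] ≥ 0` by strong induction; `f(2) = exp(g(2)) ≥ 1`. -/
def RSB_stmt : Prop := ∀ w : ℕ → ℝ, (∀ k, 0 ≤ w k) → (∀ s : ℂ, 1 < s.re → LSeriesSummable (fun k => (w k : ℂ)) s) →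
  ∃ b : ℕ → ℝ, (∀ k, 0 ≤ b k) ∧ 1 ≤ b 0 ∧
    ∀ k : ℕ, iteratedDeriv k (fun s : ℂ => Complex.exp (LSeries (fun j => (w j : ℂ)) s)) 2 = (-1) ^ k * (k.factorial : ℂ) * (b k : ℂ)

open Classical in
/-- **ONE** (short-medium): the lower bound at `1`. `Q s = ∏_χ E χ s` (there are `card Y` characters: `Ort.lean`): entire, `‖Q‖ ≤ e^(card Y * G)` for `‖s - 2‖ ≤ 5`, `Q(-2) = 0` (factor `χ = 1`), and for `Re s > 1`: `Q s = (s - 1) exp(∑_χ LSeries (ak b χ / log) s) = (s - 1) exp(LSeries w s)`,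
`w k = card Y * b 1 k / log k ≥ 0` (`ORT_ak`). RSA and RSB (with `card Y * G`): `e^(-24 card Y G) ≤ ‖Q 1‖ = ∏_χ ‖E χ 1‖ ≤ ‖E χ₀ 1‖ e^((card Y - 1) G)`. Uses RSA, RSB. -/
def ONE_stmt : Prop := ∀ (Y : Type) [CommGroup Y] [Fintype Y] (b : Y → ℕ → ℝ) (E : (Y →* ℂˣ) → ℂ → ℂ) (G : ℝ), 1 ≤ G →
  (∀ y k, 0 ≤ b y k) → (∀ χ, Differentiable ℂ (E χ)) →
  (∀ (χ : Y →* ℂˣ) (s : ℂ), 1 < s.re → LSeriesSummable (fun k => ak b χ k / (Real.log k : ℂ)) s ∧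
    E χ s = (if χ = 1 then s - 1 else 1) * Complex.exp (LSeries (fun k => ak b χ k / (Real.log k : ℂ)) s)) →
  (∀ (χ : Y →* ℂˣ) (s : ℂ), ‖s - 2‖ ≤ 5 → ‖E χ s‖ ≤ Real.exp G) → E 1 (-2) = 0 →
  ∀ χ : Y →* ℂˣ, Real.exp (-(25 * Fintype.card Y * G)) ≤ ‖E χ 1‖

end Pool.Agent.CHE
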