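import Pool.Agent.helper82.CH.SpecA
import Pool.Agent.helper82.CH.SpecE2
import Pool.Agent.helper10.CH.SpecZ

/-!
# Project CH (MP_2e0e07_nt), stage 2, part N: the system of L-functions of `Gal(F(ζ_m)/F)`, effective Chebotarev

RULES. Row `XXX`: file `Pool/Agent/<seat>/CH/XXX.lean`, `import Pool.Agent.helper82.CH.SpecN`, `set_option autoImplicit false`,
`open NumberField Complex Pool.Agent.UN`, `namespace Pool.Agent.CH`, theorem line as in the lock note. Auxiliary lemmas are prefixed `XXX_`. No sorry,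
no straight double quotes, no convert / congr!. Every row may use the other `_stmt`s only as the hypotheses named in its line (more hypotheses from SpecA, SpecZ, SpecE are allowed if useful: tell helper82).
-/

set_option autoImplicit false

open NumberField Complex Pool.Agent.UN

namespace Pool.Agent.CH

open Classical in
/-- the coefficients of the class `y` of `H ≤ (ZMod m)ˣ`: von Mangoldt's function on the ideals of norm `k ≡ y mod m` -/
noncomputable def bb (F : Type) [Field F] [NumberField F] {m : ℕ} (H : Subgroup (ZMod m)ˣ) (y : H) (k : ℕ) : ℝ :=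
  if ((k : ℕ) : ZMod m) = ((y : (ZMod m)ˣ) : ZMod m) then ∑ a ∈ idl F k, Lam a else 0

/-- **NCM** (short). `nch F ψ` is completely multiplicative (`absNorm` is multiplicative, `absNorm ⊤ = 1`, `‖ψ‖ ≤ 1`: `DirichletCharacter.norm_le_one`; products: `a * b = ⊥` iff `a = ⊥` or `b = ⊥`). On `idl F k` the value is `ψ k` (for `k = 0` the only ideal is `⊥`, and `Lam ⊥ = 0`: `⊥` is not a prime power). -/
def NCM_stmt : Prop := ∀ (F : Type) [Field F] [NumberField F] (m : ℕ) (ψ : DirichletCharacter ℂ m),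
  CM (nch F ψ) ∧ (∀ k : ℕ, k ≠ 0 → cc (nch F ψ) k = ψ ((k : ℕ) : ZMod m) * (nd F k : ℂ)) ∧
  (∀ k : ℕ, zz (nch F ψ) k = ψ ((k : ℕ) : ZMod m) * ((∑ a ∈ idl F k, Lam a : ℝ) : ℂ)) ∧ CM (tc F) ∧
  ∀ k : ℕ, zz (tc F) k = ((∑ a ∈ idl F k, Lam a : ℝ) : ℂ)

/-- **EUL** (medium): Euler factors at the primes dividing `q`. For a CM function `χ` and a prime `P`, `χ^P(a) = 0` if `P ∣ a`, `χ(a)` otherwise, is CM and for `Re s > 1` (TSL, CSM; absolutely convergent sums over ideals; the ideals divisible by `P` are the `P a'`):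
`∑_a χ^P(a) N(a)^(-s) = (1 - χ(P) N(P)^(-s)) ∑_a χ(a) N(a)^(-s)`. Induction over the finite set `S` of the primes dividing `q`; the last function is `χq` (`a ⊔ q = ⊤` iff no `P ∈ S` divides `a`; `χq ⊥ = 0 = χ ⊥`). `R s = ∏_{P ∈ S} (1 - χ(P) N(P)^(-s))`, entire; `‖1 - χ(P) N(P)^(-s)‖ ≤ 1 + N(P)^‖s‖ ≤ N(P)^(1+‖s‖)` as `N(P) ≥ 2`,
and `∏_{P ∈ S} N(P) ≤ N(q)` since `∏ P` divides `q ≠ ⊥`. Uses CSM, TSL. -/
def EUL_stmt : Prop := ∀ (F : Type) [Field F] [NumberField F] (q : Ideal (𝓞 F)) (χ χq : Ideal (𝓞 F) → ℂ), q ≠ ⊥ → CM χ → CM χq →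
  (∀ a : Ideal (𝓞 F), a ≠ ⊥ → a ⊔ q = ⊤ → χq a = χ a) → (∀ a : Ideal (𝓞 F), a ⊔ q ≠ ⊤ → χq a = 0) →
  ∃ R : ℂ → ℂ, Differentiable ℂ R ∧ (∀ s : ℂ, 1 < s.re → LSeries (cc χq) s = R s * LSeries (cc χ) s) ∧
    ∀ s : ℂ, ‖R s‖ ≤ (Nm q) ^ (1 + ‖s‖)

/-- **ZM2** (short-medium): the trivial zero of `(s - 1) ζ_K(s)` at `-2`. Let `c`, `e` be as in `HLZ.fe`. At `s = 0` the left side is `0`; if all `e σ = 1` the right side is `c * (1 * D^(1/2) * conj (Z 1) * ∏ (Γ_ℝ 1)⁻¹) ≠ 0`, because `Z 1 = dedekindZeta_residue K > 0` (CZR, `NumberField.dedekindZeta_residue_pos`), `D > 0`, `‖c‖ = 1`.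
So some `e σ = 0`. At `s = -2` the right side is `0` because `Γ_ℝ(-2) = 0` in Lean (`Complex.Gammaℝ_eq_zero_iff`), so `(-2) * D^(-1) * Z(-2) * ∏ (Γ_ℝ(3 + e σ))⁻¹ = 0`; `Γ_ℝ(3 + e σ) ≠ 0` (`Complex.Gammaℝ_ne_zero_of_re_pos`), hence `Z(-2) = 0`. Uses CZR. -/
def ZM2_stmt : Prop := ∀ (K : Type) [Field K] [NumberField K] (Z : ℂ → ℂ), HLZ K Z → Z (-2) = 0

open Classical in
/-- **EPS** (medium): the entire functions `E_ψ`. `q = (m)`, `N(q) = m^[F:ℚ] ≤ m^n`. NOT `Triv F ψ`: `f`, `χ'` from MAX for `nch F ψ` (NCH); `NT χ'` (NTL); `L` from HLE; `E = R L` with `R` from EUL (`χ = χ'`, `χq = nch F ψ`; `nch F ψ a = 0` for `a` not prime to `q`: `HMo.zero`); series: TSL and `HLG.series`.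
Bound: EUL, UBL and `N(f) ≤ N(q)` (`f` divides `q`), `D ≥ 1`. `Triv F ψ`: `χ = tc F` (CM: NCM), `nch F ψ a = 1 = tc F a` for `a ≠ ⊥` prime to `q`; `Z` from HLZE, `E = R Z`, UBZ, ZM2. Uses NCH MAX NTL TSL HLE NCM EUL ZM2 HLZE UBL UBZ. -/
def EPS_stmt : Prop := ∀ n m : ℕ, 0 < m → ∃ C : ℝ, 1 ≤ C ∧ ∀ (F : Type) [Field F] [NumberField F] (ψ : DirichletCharacter ℂ m),
  Module.finrank ℚ F ≤ n → ∃ E : ℂ → ℂ, Differentiable ℂ E ∧
    (∀ s : ℂ, 1 < s.re → E s = (if Triv F ψ then s - 1 else 1) * LSeries (cc (nch F ψ)) s) ∧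
    (∀ s : ℂ, ‖E s‖ ≤ Real.exp (C * (1 + ‖s‖) * (1 + Real.log (Dc F) + Real.log (2 + ‖s‖)))) ∧
    (Triv F ψ → E (-2) = 0)

/-- **ELW** (short-medium): lower bound on the line `Re s = 2`. EXL (with CID, CSM): `LSeries (cc χ) s = exp(LSeries (lg χ) s)`, and `‖LSeries (lg χ) s‖ ≤ ∑_k [F : ℚ] Λ(k)/log k * k^(-2) ≤ n ∑_k k^(-2)` (ZBD, `ArithmeticFunction.vonMangoldt_le_log`). Uses CID CSM EXL ZBD. -/
def ELW_stmt : Prop := ∀ n : ℕ, ∃ C : ℝ, 1 ≤ C ∧ ∀ (F : Type) [Field F] [NumberField F] (χ : Ideal (𝓞 F) → ℂ),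
  Module.finrank ℚ F ≤ n → CM χ → ∀ t : ℝ, Real.exp (-C) ≤ ‖LSeries (cc χ) (2 + t * I)‖

/-- **NHH** (medium): the norms of the ideals prime to `m` act on the roots of unity by elements of `Gal(M/F)`. For a prime `P` of `F` not containing `m`: `Q` a prime of `𝓞 M` over `P`, `τ ∈ Gal(M/F)` a Frobenius element at `Q` (`M / F` is Galois, cyclotomic; `IsArithFrobAt.exists_of_isInvariant (𝓞 F) (M ≃ₐ[F] M) Q`; see `Pool/Agent/helper27/CH/FRB.lean`
and `Pool/Agent/helper58/CH/SPL.lean`), `τ z = z^(N P)` (`AlgHom.IsArithFrobAt.apply_of_pow_eq_one`, `m ∉ Q`). In general induction over the prime factors of `a` (`UniqueFactorizationMonoid.induction_on_prime` or `Ideal` induction): `g z = z^(N a)`, `τ z = z^(N P)` give `(τ g) z = z^(N(P a))`. -/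
def NHH_stmt : Prop := ∀ (F M : Type) [Field F] [NumberField F] [Field M] [NumberField M] [Algebra F M] (m : ℕ) (z : M),
  0 < m → IsPrimitiveRoot z m → Algebra.adjoin F {z} = ⊤ → ∀ a : Ideal (𝓞 F), a ≠ ⊥ →
  a ⊔ Ideal.span {((m : ℕ) : 𝓞 F)} = ⊤ → ∃ g : M ≃ₐ[F] M, g z = z ^ (Ideal.absNorm a)

/-- **COP** (short-medium): an ideal whose norm is prime to `m` is prime to `(m)` (a prime `P ⊇ a + (m)` contains its residue characteristic `l`, `l ∣ m`, and `N(P) ∣ N(a)` is a power of `l`; or: `N(a) ∈ a` (`Ideal.absNorm_mem`) and `u N(a) + v m = 1`), and conversely (a prime `l` dividing `m` and `N(a)`: `a` is contained in a prime over `l`;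
this is in the proof of NCH, `Pool/Agent/helper17/CH/NCH.lean`). -/
def COP_stmt : Prop := ∀ (F : Type) [Field F] [NumberField F] (m : ℕ) (a : Ideal (𝓞 F)), 0 < m → a ≠ ⊥ →
  (a ⊔ Ideal.span {((m : ℕ) : 𝓞 F)} = ⊤ ↔ (Ideal.absNorm a).Coprime m)

/-- **ABX** (medium): the coefficients of the system. `ψ` extends `χ` to a Dirichlet character mod `m`: `MonoidHom.domRestrict_surjective` (`M = ℂ`, `G = (ZMod m)ˣ`) and `MulChar.ofUnitHom`. (1) If `k mod m` is a unit in `H` exactly one `y` contributes. If it is not a unit both sides are `0`. If it is a unit not in `H` then `idl F k` is empty: an ideal `a` of norm `k`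
is prime to `m` (COP), so `g z = z^k` for some `g` (NHH), `k mod m ∈ H`. (2) `χ = 1`: `Triv`: for `a` prime to `m`, `N(a) mod m` is in `H` (NHH), `ψ(N(a)) = χ(..) = 1`. Conversely TRV: `ψ(r) = 1` whenever `g z = z^r`, so `χ = 1` on `H`. Uses NCM COP NHH TRV. -/
def ABX_stmt : Prop := ∀ (F M : Type) [Field F] [NumberField F] [Field M] [NumberField M] [Algebra F M] (m : ℕ) (z : M)
  (H : Subgroup (ZMod m)ˣ) [Fintype H], 0 < m → IsPrimitiveRoot z m → Algebra.adjoin F {z} = ⊤ →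
  (∀ u : (ZMod m)ˣ, u ∈ H ↔ ∃ g : M ≃ₐ[F] M, g z = z ^ (u : ZMod m).val) → ∀ χ : H →* ℂˣ,
  ∃ ψ : DirichletCharacter ℂ m, (∀ k : ℕ, CHE.ak (bb F H) χ k = zz (nch F ψ) k) ∧ (Triv F ψ ↔ χ = 1)

/-- **SYS** (medium-long): the system. `E χ` = the function of EPS for the `ψ` of ABX. `nonneg`: `Lam ≥ 0`. `bd`: at most one `y` has `b y k ≠ 0`, `∑_y b y k ≤ ∑_a Lam a = ‖zz (tc F) k‖ ≤ n Λ(k)` (NCM, ZBD). `ne`, `ser`: EXL (with CID, CSM, CM from NCM): `LSeries (cc) = exp(LSeries (lg)) ≠ 0`, `(LSeries cc)' = - LSeries zz * LSeries cc`,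
`E χ = (s - 1)^δ LSeries (cc (nch F ψ))` on the open half plane `Re s > 1`. `low`: ELW, `‖(2 + t i) - 1‖ ≥ 1`. `up`: EPS, `1 + log D ≤ l`. `one`: CHE.ONE with `G = 8 C' (l + log 9)` (`‖s‖ ≤ 7` if `‖s - 2‖ ≤ 5`; `C'` from EPS), `G ≤ 26 C' l`, `card H ≤ m`. `C` = the maximum. Uses EPS NCM CID CSM EXL ZBD ELW ABX CHE.ONE. -/
def SYS_stmt : Prop := ∀ n m : ℕ, 0 < m → ∃ C : ℝ, 1 ≤ C ∧ ∀ (F M : Type) [Field F] [NumberField F] [Field M] [NumberField M] [Algebra F M]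
  (z : M) (H : Subgroup (ZMod m)ˣ) [Fintype H] (l : ℝ), Module.finrank ℚ F ≤ n → IsPrimitiveRoot z m → Algebra.adjoin F {z} = ⊤ →
  (∀ u : (ZMod m)ˣ, u ∈ H ↔ ∃ g : M ≃ₐ[F] M, g z = z ^ (u : ZMod m).val) → 1 + Real.log (Dc F) ≤ l →
  ∃ E : (H →* ℂˣ) → ℂ → ℂ, CHE.Sys C l (bb F H) E

/-- **EPR** (medium): the effective form of PAP. `H` = the image of `IsPrimitiveRoot.autToPow` (or the subgroup of the `u` with `∃ g, g z = z^(u.val)`), `card H ≤ m`; `C` from SYS, `A` from CHE.LIN with `q = m`; `l = 1 + log N` (`N ≥ |discr F| ≥ 1`), `e^l ≥ N ≥ T.card`: some prime `p ∉ T`, `p ≤ e^(A l) = e^A N^A`, has `bb F H y p ≠ 0`, `y` = the class of `r`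
(a unit since `g z = z^r` is a primitive root; in `H`), so `p ≡ r mod m` and `idl F p` is not empty. Uses SYS, CHE.LIN. -/
def EPR_stmt : Prop := EPAP_stmt

/-- **DFL** (medium): discriminants. `discr F ∣ discr M` (`NumberField.discr_dvd_discr`), `|discr M| = N(𝔇_{M/L}) |discr L|^[M:L]` (`NumberField.natAbs_discr_eq_absNorm_differentIdeal_mul_natAbs_discr_pow`); `𝔇_{M/L}` contains `f'(z)`, `f` the minimal polynomial of `z` (in `𝓞 M`, `z` generates `M / L`; `aeval_derivative_mem_differentIdeal`), `X^m - 1 = f g`, so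
`m z^(m-1) = f'(z) g(z) ∈ 𝔇_{M/L}`, `m ∈ 𝔇_{M/L}`, and its norm divides `m^[M:ℚ]`. `[M:L] ≤ deg (X^m - 1)`. -/
def DFL_stmt : Prop := ∀ (F L M : Type) [Field F] [NumberField F] [Field L] [NumberField L] [Field M] [NumberField M] [Algebra F M]
  [Algebra L M] (m : ℕ) (z : M), 0 < m → IsPrimitiveRoot z m → Algebra.adjoin L {z} = ⊤ →
  (discr F).natAbs ≤ m ^ (Module.finrank ℚ M) * (discr L).natAbs ^ (Module.finrank L M) ∧ Module.finrank L M ≤ m ∧
  Module.finrank ℚ F ≤ Module.finrank ℚ M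

end Pool.Agent.CH
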